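import Pool.Agent.W_MP_d99112_an.Consts

/-!
# Ball evaluation of the approximate truncated transform
-/

namespace Pool.Agent.W_MP_d99112_an

open CB

/-- ball around `exp (-π)` -/
def qB : CB := (CB.mk (-piB.re) (-piB.im) piB.rad).exp 2

/-- `GG` at the point where `e^{2t} = X`, with `κ = π N2`, `σ = (x + i y)/den`, given the ball
`pre` of the exponential prefactor; also the last term of the series. -/
def gB (x y : ℤ) (den N2 D X : ℕ) (pre : CB) : CB × CB :=
  let kap := piB.mulG N2 0
  let t := tB x y den (kap.mulG X 0) D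
  (pre.mul ((((kap.mul t.1).mulG (2 * x - 3 * den) (2 * y)).divN den).sub (kap.mulG 2 0)), t.2)

/-- the exponent `3 σ log 2` -/
def vB (x y : ℤ) (den : ℕ) : CB := (lnB.mulG (3 * x) (3 * y)).divN den

/-- difference `GG(R) - GG(0)` for one sign and one `N` -/
def dB (x y : ℤ) (den N2 D : ℕ) : CB :=
  let pre8 := ((vB x y den).exp 6).mul (qB.pow (8 * N2))
  let pre1 := qB.pow N2
  (gB x y den N2 D 8 pre8).1.sub (gB x y den N2 D 1 pre1).1

end Pool.Agent.W_MP_d99112_an
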