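import Pool.Agent.W_MP_d99112_an.Kernel
import Pool.Agent.W_MP_d99112_an.Eval

/-!
# The approximation of `F R z` by elementary expressions
-/

namespace Pool.Agent.W_MP_d99112_an

open Complex MeasureTheory

/-- the truncation point: `e^{2R} = 8` -/
noncomputable def RR : ℝ := 3 / 2 * Real.log 2

lemma RR_pos : 0 < RR := by
  unfold RR
  have := Real.log_pos (by norm_num : (1 : ℝ) < 2)
  linarith

lemma RR_le : RR ≤ 26 / 25 := by
  unfold RR
  have := Real.log_two_lt_d9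
  linarith

lemma exp_two_RR : Real.exp (2 * RR) = 8 := by
  unfold RR
  have h : 2 * (3 / 2 * Real.log 2) = 3 * Real.log 2 := by ring
  rw [h]
  have h2 : Real.exp (3 * Real.log 2) = Real.exp (Real.log 2) ^ 3 := by
    rw [← Real.exp_nat_mul]; norm_num
  rw [h2, Real.exp_log (by norm_num)]
  norm_num

noncomputable def kap (n : ℕ) : ℝ := Real.pi * ((n : ℝ) + 1) ^ 2

lemma kap_nonneg (n : ℕ) : 0 ≤ kap n := by unfold kap; positivity

noncomputable def sp (z : ℂ) : ℂ := 5 / 4 + I * z / 2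
noncomputable def sm (z : ℂ) : ℂ := 5 / 4 - I * z / 2

/-- pointwise identity -/
lemma term_identity (n : ℕ) (z : ℂ) (t : ℝ) :
    ((2 * ph n t : ℝ) : ℂ) * Complex.cos (z * t) =
      EE (kap n) (sp z) t * (2 * (kap n : ℂ) * yy (kap n) t - 3 * (kap n : ℂ)) +
      EE (kap n) (sm z) t * (2 * (kap n : ℂ) * yy (kap n) t - 3 * (kap n : ℂ)) := by
  have e1 : ((Real.exp (5 * t / 2) : ℝ) : ℂ) = Complex.exp (5 * t / 2) := by
    rw [Complex.ofReal_exp]; push_cast; rfl
  have e2 : ((Real.exp (-kap n * Real.exp (2 * t)) : ℝ) : ℂ) =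
      Complex.exp (-(kap n : ℂ) * ((Real.exp (2 * t) : ℝ) : ℂ)) := by
    rw [Complex.ofReal_exp, Complex.ofReal_mul, Complex.ofReal_neg]
  have h1 : EE (kap n) (sp z) t = ((Real.exp (5 * t / 2) : ℝ) : ℂ) * Complex.exp (z * t * I) *
      ((Real.exp (-kap n * Real.exp (2 * t)) : ℝ) : ℂ) := by
    unfold EE sp
    rw [e1, e2, ← Complex.exp_add, ← Complex.exp_add]
    congr 1
    ring
  have h2 : EE (kap n) (sm z) t = ((Real.exp (5 * t / 2) : ℝ) : ℂ) * Complex.exp (-(z * t) * I) *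
      ((Real.exp (-kap n * Real.exp (2 * t)) : ℝ) : ℂ) := by
    unfold EE sm
    rw [e1, e2, ← Complex.exp_add, ← Complex.exp_add]
    congr 1
    ring
  have h3 : ph n t = Real.exp (5 * t / 2) * (2 * kap n ^ 2 * Real.exp (2 * t) - 3 * kap n) *
      Real.exp (-kap n * Real.exp (2 * t)) := by
    unfold ph kap
    have h4 : Real.exp (9 * t / 2) = Real.exp (5 * t / 2) * Real.exp (2 * t) := by
      rw [← Real.exp_add]; ring_nf
    have h5 : -(Real.pi * ((n : ℝ) + 1) ^ 2) * Real.exp (2 * t) =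
        -Real.pi * ((n : ℝ) + 1) ^ 2 * Real.exp (2 * t) := by ring
    rw [h4, h5]
    ring
  rw [h1, h2, h3]
  unfold Complex.cos yy
  push_cast
  ring

lemma integral_term (n : ℕ) (z : ℂ) (R : ℝ) (D : ℕ) (hp : ∀ k : ℕ, sp z + k ≠ 0)
    (hm : ∀ k : ℕ, sm z + k ≠ 0) :
    ∫ t in (0 : ℝ)..R, ((2 * ph n t : ℝ) : ℂ) * Complex.cos (z * t) =
      ((GG (kap n) (sp z) D R - GG (kap n) (sp z) D 0) / 2 +
        (GG (kap n) (sm z) D R - GG (kap n) (sm z) D 0) / 2) +
      ((∫ t in (0 : ℝ)..R, EE (kap n) (sp z) t * ((kap n : ℂ) * (2 * sp z - 3)) *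
          (yy (kap n) t * uu (sp z) (yy (kap n) t) D)) +
        ∫ t in (0 : ℝ)..R, EE (kap n) (sm z) t * ((kap n : ℂ) * (2 * sm z - 3)) *
          (yy (kap n) t * uu (sm z) (yy (kap n) t) D)) := by
  have hc : ∀ σ : ℂ, Continuous (fun t => EE (kap n) σ t *
      (2 * (kap n : ℂ) * yy (kap n) t - 3 * (kap n : ℂ))) := fun σ =>
    (continuous_EE _ σ).mul (((continuous_const.mul (continuous_yy _)).sub continuous_const))
  have h1 : ∫ t in (0 : ℝ)..R, ((2 * ph n t : ℝ) : ℂ) * Complex.cos (z * t) =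
      (∫ t in (0 : ℝ)..R, EE (kap n) (sp z) t *
        (2 * (kap n : ℂ) * yy (kap n) t - 3 * (kap n : ℂ))) +
      ∫ t in (0 : ℝ)..R, EE (kap n) (sm z) t *
        (2 * (kap n : ℂ) * yy (kap n) t - 3 * (kap n : ℂ)) := by
    rw [← intervalIntegral.integral_add ((hc _).intervalIntegrable 0 R)
      ((hc _).intervalIntegrable 0 R)]
    apply intervalIntegral.integral_congr
    intro t _
    exact term_identity n z t
  rw [h1, integral_EE hp, integral_EE hm]
  ring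

/-- bound on `e^{-9π}` -/
lemma exp_nine_pi : Real.exp (-(9 * Real.pi)) ≤ 5.271e-13 := by
  have hpi := Real.pi_gt_d6
  have h1 : Real.exp (-(9 * Real.pi)) ≤ Real.exp (-(28.274328)) := by
    apply Real.exp_le_exp.mpr
    linarith
  refine h1.trans ?_
  rw [Real.exp_neg, inv_eq_one_div, div_le_iff₀ (Real.exp_pos _)]
  have h2 : Real.exp (28.274328) = Real.exp 1 ^ 28 * Real.exp 0.274328 := by
    rw [← Real.exp_nat_mul, ← Real.exp_add]; norm_num
  have h3 := Real.exp_one_gt_d9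
  have h4 : (2.7182818283 : ℝ) ^ 28 ≤ Real.exp 1 ^ 28 := pow_le_pow_left₀ (by norm_num) h3.le 28
  have h5 := Real.quadratic_le_exp_of_nonneg (x := 0.274328) (by norm_num)
  rw [h2]
  calc (1 : ℝ) ≤ 5.271e-13 * (2.7182818283 ^ 28 * (1 + 0.274328 + 0.274328 ^ 2 / 2)) := by
        norm_num
    _ ≤ 5.271e-13 * (Real.exp 1 ^ 28 * Real.exp 0.274328) := by
        apply mul_le_mul_of_nonneg_left _ (by norm_num)
        exact mul_le_mul h4 h5 (by norm_num) (by positivity)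

lemma tail_const : 4 * Real.pi ^ 2 * (ww 2 * (100 / 99)) ≤ 1.71e-9 := by
  have h1 : ww 2 = 81 * Real.exp (-(9 * Real.pi)) := by
    unfold ww
    norm_num
    ring_nf
  have h2 := exp_nine_pi
  have hpi1 := Real.pi_lt_d6
  have hpi0 := Real.pi_pos
  have h3 : Real.pi ^ 2 ≤ 3.141593 ^ 2 := pow_le_pow_left₀ hpi0.le hpi1.le 2
  have h4 := Real.exp_pos (-(9 * Real.pi))
  rw [h1]
  calc 4 * Real.pi ^ 2 * (81 * Real.exp (-(9 * Real.pi)) * (100 / 99))
      ≤ 4 * 3.141593 ^ 2 * (81 * 5.271e-13 * (100 / 99)) := by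
        apply mul_le_mul
        · linarith
        · linarith
        · positivity
        · positivity
    _ ≤ 1.71e-9 := by norm_num

lemma tail_integral (z : ℂ) {b R c : ℝ} (hR : 0 ≤ R) (hb : |z.im| ≤ b)
    (hc : 0 < c) (hcb : c ≤ 18 * Real.pi - 9 / 2 - b) :
    ‖∫ x in (0 : ℝ)..R, (tl x : ℂ) * Complex.cos (z * x)‖ ≤ 1.71e-9 / c := by
  have hkey : ∀ x ∈ Set.Icc 0 R, ‖(tl x : ℂ) * Complex.cos (z * x)‖ ≤
      1.71e-9 * Real.exp (-c * x) := by
    intro x hx
    rw [norm_mul, Complex.norm_real, Real.norm_eq_abs]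
    have h1 := abs_tl_le x hx.1
    have h2 := norm_cos_le (z * x)
    have h3 : |(z * (x : ℂ)).im| ≤ b * x := by
      have : (z * (x : ℂ)).im = z.im * x := by simp
      rw [this, abs_mul, abs_of_nonneg hx.1]
      exact mul_le_mul_of_nonneg_right hb hx.1
    have h4 : ‖Complex.cos (z * x)‖ ≤ Real.exp (b * x) := h2.trans (Real.exp_le_exp.mpr h3)
    calc |tl x| * ‖Complex.cos (z * x)‖ ≤ (4 * Real.pi ^ 2 * (ww 2 * (100 / 99)) *
      Real.exp ((9 / 2 - 18 * Real.pi) * x)) * Real.exp (b * x) :=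
          mul_le_mul h1 h4 (norm_nonneg _) (by
            have := ww_pos 2
            positivity)
      _ = (4 * Real.pi ^ 2 * (ww 2 * (100 / 99))) *
          Real.exp ((9 / 2 - 18 * Real.pi + b) * x) := by
          rw [mul_assoc, ← Real.exp_add]; ring_nf
      _ ≤ 1.71e-9 * Real.exp (-c * x) := by
          apply mul_le_mul tail_const _ (Real.exp_pos _).le (by norm_num)
          apply Real.exp_le_exp.mpr
          apply mul_le_mul_of_nonneg_right _ hx.1
          linarith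
  have hderiv : ∀ x : ℝ, HasDerivAt (fun x => -(1.71e-9 / c) * Real.exp (-c * x))
      (1.71e-9 * Real.exp (-c * x)) x := by
    intro x
    have h1 := (((hasDerivAt_id x).const_mul (-c)).exp).const_mul (-(1.71e-9 / c))
    refine (HasDerivAt.congr_deriv h1 ?_)
    simp only [id]
    field_simp
  have hcont : Continuous (fun x : ℝ => 1.71e-9 * Real.exp (-c * x)) := by fun_prop
  have hint := intervalIntegral.integral_eq_sub_of_hasDerivAt (a := 0) (b := R)
    (fun t _ => hderiv t) (hcont.intervalIntegrable 0 R)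
  have h5 := intervalIntegral.norm_integral_le_of_norm_le (μ := volume) hR
    (f := fun x : ℝ => (tl x : ℂ) * Complex.cos (z * x))
    (g := fun x => 1.71e-9 * Real.exp (-c * x))
    (Filter.Eventually.of_forall fun t ht => hkey t ⟨ht.1.le, ht.2⟩)
    (hcont.intervalIntegrable 0 R)
  refine h5.trans ?_
  rw [hint]
  simp only [mul_zero, Real.exp_zero, mul_one]
  have h6 : 0 < 1.71e-9 / c * Real.exp (-c * R) := by positivity
  linarith

/-- the approximating expression for the `n`-th term -/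
noncomputable def VV (n : ℕ) (z : ℂ) (D : ℕ) : ℂ :=
  (GG (kap n) (sp z) D RR - GG (kap n) (sp z) D 0) / 2 +
    (GG (kap n) (sm z) D RR - GG (kap n) (sm z) D 0) / 2

lemma F_split (z : ℂ) :
    F RR z = (∫ t in (0 : ℝ)..RR, ((2 * ph 0 t : ℝ) : ℂ) * Complex.cos (z * t)) +
      (∫ t in (0 : ℝ)..RR, ((2 * ph 1 t : ℝ) : ℂ) * Complex.cos (z * t)) +
      ∫ t in (0 : ℝ)..RR, (tl t : ℂ) * Complex.cos (z * t) := by
  have hcos : Continuous (fun x : ℝ => Complex.cos (z * x)) := by fun_prop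
  have i0 := intervalIntegrable_aux (f := fun t => 2 * ph 0 t) RR_pos.le
    (continuous_const.mul (continuous_ph 0)).continuousOn hcos
  have i1 := intervalIntegrable_aux (f := fun t => 2 * ph 1 t) RR_pos.le
    (continuous_const.mul (continuous_ph 1)).continuousOn hcos
  have i2 := intervalIntegrable_aux RR_pos.le (continuousOn_tl RR) hcos
  rw [← intervalIntegral.integral_add i0 i1, ← intervalIntegral.integral_add (i0.add i1) i2]
  unfold F
  apply intervalIntegral.integral_congr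
  intro t ht
  rw [Set.uIcc_of_le RR_pos.le] at ht
  simp only
  rw [Phi_split t ht.1]
  push_cast
  ring

lemma sigma_ne {σ : ℂ} (h : σ.im ≠ 0) (k : ℕ) : σ + k ≠ 0 := by
  intro h0
  apply h
  have := congrArg Complex.im h0
  simpa using this

lemma sp_im (z : ℂ) : (sp z).im = z.re / 2 := by
  simp [sp]

lemma sm_im (z : ℂ) : (sm z).im = -(z.re / 2) := by
  simp [sm]

lemma sp_re (z : ℂ) : (sp z).re = 5 / 4 - z.im / 2 := by
  simp [sp]
  ring

lemma sm_re (z : ℂ) : (sm z).re = 5 / 4 + z.im / 2 := by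
  simp [sm]
  ring

lemma exp_re_bound {s : ℝ} (hs : s ≤ 14) : Real.exp (2 * s * RR) ≤ 8 ^ 14 := by
  have h1 : Real.exp (2 * s * RR) ≤ Real.exp (2 * 14 * RR) := by
    apply Real.exp_le_exp.mpr
    have := RR_pos
    nlinarith
  refine h1.trans (le_of_eq ?_)
  rw [← exp_two_RR, ← Real.exp_nat_mul]
  congr 1
  push_cast
  ring

/-- crude truncation bound -/
lemma trunc_crude {n : ℕ} (hn : n ≤ 1) {σ : ℂ} (hre : σ.re ≤ 14) (hnorm : ‖2 * σ - 3‖ ≤ 60)
    {D : ℕ} (hu : ‖uu σ (yy (kap n) RR) D‖ ≤ 1e-32) :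
    ‖∫ t in (0 : ℝ)..RR, EE (kap n) σ t * ((kap n : ℂ) * (2 * σ - 3)) *
          (yy (kap n) t * uu σ (yy (kap n) t) D)‖ ≤ 1e-14 := by
  have hk : kap n ≤ 12.6 := by
    unfold kap
    have hpi := Real.pi_lt_d6
    have hn' : ((n : ℝ) + 1) ^ 2 ≤ 4 := by
      have : (n : ℝ) ≤ 1 := by exact_mod_cast hn
      have h0 : (0 : ℝ) ≤ n := Nat.cast_nonneg n
      nlinarith
    have hpi0 := Real.pi_pos
    nlinarith
  have hk0 := kap_nonneg n
  have h1 := trunc_bound (σ := σ) hk0 RR_pos.le D (B := 8 ^ 14) (by norm_num)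
    (exp_re_bound hre)
  refine h1.trans ?_
  rw [exp_two_RR]
  have hR := RR_le
  have hR0 := RR_pos
  calc 8 ^ 14 * (kap n * ‖2 * σ - 3‖) * (kap n * 8 * ‖uu σ (yy (kap n) RR) D‖) * RR
      ≤ 8 ^ 14 * (12.6 * 60) * (12.6 * 8 * 1e-32) * (26 / 25) := by
        gcongr
    _ ≤ 1e-14 := by norm_num

/-- main approximation -/
lemma F_approx (z : ℂ) {b c : ℝ} (hb : |z.im| ≤ b) (hb' : b ≤ 25.5) (hc : 0 < c)
    (hcb : c ≤ 18 * Real.pi - 9 / 2 - b) (hre : z.re ≠ 0) (hrez : |z.re| ≤ 31) (D1 D2 : ℕ)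
    (hu1 : ‖uu (sp z) (yy (kap 0) RR) D1‖ ≤ 1e-32)
    (hu2 : ‖uu (sm z) (yy (kap 0) RR) D1‖ ≤ 1e-32)
    (hu3 : ‖uu (sp z) (yy (kap 1) RR) D2‖ ≤ 1e-32)
    (hu4 : ‖uu (sm z) (yy (kap 1) RR) D2‖ ≤ 1e-32) :
    ‖F RR z - (VV 0 z D1 + VV 1 z D2)‖ ≤ 4e-14 + 1.71e-9 / c := by
  have hp : ∀ k : ℕ, sp z + k ≠ 0 := sigma_ne (by rw [sp_im]; intro h; apply hre; linarith)
  have hm : ∀ k : ℕ, sm z + k ≠ 0 := sigma_ne (by rw [sm_im]; intro h; apply hre; linarith)
  have him := abs_le.mp hb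
  have hsp : (sp z).re ≤ 14 := by rw [sp_re]; linarith
  have hsm : (sm z).re ≤ 14 := by rw [sm_re]; linarith
  have hre' := abs_le.mp hrez
  have hnsp : ‖2 * sp z - 3‖ ≤ 60 := by
    refine (Complex.norm_le_abs_re_add_abs_im _).trans ?_
    have e1 : (2 * sp z - 3).re = -1 / 2 - z.im := by simp [sp_re]; ring
    have e2 : (2 * sp z - 3).im = z.re := by simp [sp_im]; ring
    rw [e1, e2]
    have h3 : |-1 / 2 - z.im| ≤ 26 := by rw [abs_le]; constructor <;> linarith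
    linarith
  have hnsm : ‖2 * sm z - 3‖ ≤ 60 := by
    refine (Complex.norm_le_abs_re_add_abs_im _).trans ?_
    have e1 : (2 * sm z - 3).re = -1 / 2 + z.im := by simp [sm_re]; ring
    have e2 : (2 * sm z - 3).im = -z.re := by simp [sm_im]; ring
    rw [e1, e2, abs_neg]
    have h3 : |-1 / 2 + z.im| ≤ 26 := by rw [abs_le]; constructor <;> linarith
    linarith
  have t1 := trunc_crude (n := 0) (by norm_num) hsp hnsp hu1
  have t2 := trunc_crude (n := 0) (by norm_num) hsm hnsm hu2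
  have t3 := trunc_crude (n := 1) (by norm_num) hsp hnsp hu3
  have t4 := trunc_crude (n := 1) (by norm_num) hsm hnsm hu4
  have t5 := tail_integral z RR_pos.le hb hc hcb
  rw [F_split, integral_term 0 z RR D1 hp hm, integral_term 1 z RR D2 hp hm]
  set a1 := ∫ t in (0 : ℝ)..RR, EE (kap 0) (sp z) t * ((kap 0 : ℂ) * (2 * sp z - 3)) *
          (yy (kap 0) t * uu (sp z) (yy (kap 0) t) D1)
  set a2 := ∫ t in (0 : ℝ)..RR, EE (kap 0) (sm z) t * ((kap 0 : ℂ) * (2 * sm z - 3)) *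
          (yy (kap 0) t * uu (sm z) (yy (kap 0) t) D1)
  set a3 := ∫ t in (0 : ℝ)..RR, EE (kap 1) (sp z) t * ((kap 1 : ℂ) * (2 * sp z - 3)) *
          (yy (kap 1) t * uu (sp z) (yy (kap 1) t) D2)
  set a4 := ∫ t in (0 : ℝ)..RR, EE (kap 1) (sm z) t * ((kap 1 : ℂ) * (2 * sm z - 3)) *
          (yy (kap 1) t * uu (sm z) (yy (kap 1) t) D2)
  set a5 := ∫ t in (0 : ℝ)..RR, (tl t : ℂ) * Complex.cos (z * t)
  have heq : (GG (kap 0) (sp z) D1 RR - GG (kap 0) (sp z) D1 0) / 2 +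
        (GG (kap 0) (sm z) D1 RR - GG (kap 0) (sm z) D1 0) / 2 + (a1 + a2) +
      ((GG (kap 1) (sp z) D2 RR - GG (kap 1) (sp z) D2 0) / 2 +
        (GG (kap 1) (sm z) D2 RR - GG (kap 1) (sm z) D2 0) / 2 + (a3 + a4)) + a5 -
      (VV 0 z D1 + VV 1 z D2) = a1 + a2 + a3 + a4 + a5 := by
    unfold VV
    ring
  rw [heq]
  have n1 := norm_add_le (a1 + a2 + a3 + a4) a5
  have n2 := norm_add_le (a1 + a2 + a3) a4
  have n3 := norm_add_le (a1 + a2) a3
  have n4 := norm_add_le a1 a2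
  linarith

end Pool.Agent.W_MP_d99112_an
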