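import Mathlib

/-!
# Verified fixed-point complex ball arithmetic (256 fractional bits)

A ball `⟨re, im, rad⟩` (integers) represents the set of complex numbers `z` with
`‖2^256 z - (re + i im)‖ ≤ rad`. All operations are computable on integers and can be evaluated
in the kernel.
-/

namespace Pool.Agent.W_MP_d99112_an

/-- the scale `2^256` -/
def sc : ℕ := 115792089237316195423570985008687907853269984665640564039457584007913129639936

lemma sc_eq : sc = 2 ^ 256 := by unfold sc; norm_num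

lemma sc_pos : 0 < sc := by unfold sc; norm_num

lemma scR_pos : (0 : ℝ) < (sc : ℝ) := by exact_mod_cast sc_pos

/-- complex balls with integer data -/
structure CB where
  re : ℤ
  im : ℤ
  rad : ℕ

namespace CB

/-- center as a (scaled) complex number -/
noncomputable def ctr (b : CB) : ℂ := (b.re : ℂ) + (b.im : ℂ) * Complex.I

/-- membership -/
def mem (b : CB) (z : ℂ) : Prop := ‖(sc : ℂ) * z - b.ctr‖ ≤ (b.rad : ℝ)

def add (a b : CB) : CB := ⟨a.re + b.re, a.im + b.im, a.rad + b.rad⟩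

def sub (a b : CB) : CB := ⟨a.re - b.re, a.im - b.im, a.rad + b.rad⟩

def mul (a b : CB) : CB :=
  ⟨(a.re * b.re - a.im * b.im) / (sc : ℤ), (a.re * b.im + a.im * b.re) / (sc : ℤ),
    ((a.re.natAbs + a.im.natAbs) * b.rad + (b.re.natAbs + b.im.natAbs) * a.rad +
      a.rad * b.rad) / sc + 3⟩

/-- multiplication by the Gaussian integer `x + i y` -/
def mulG (a : CB) (x y : ℤ) : CB :=
  ⟨a.re * x - a.im * y, a.re * y + a.im * x, a.rad * (x.natAbs + y.natAbs)⟩

/-- division by a positive natural number -/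
def divN (a : CB) (d : ℕ) : CB :=
  ⟨a.re / (d : ℤ), a.im / (d : ℤ), a.rad / d + 3⟩

/-- the ball around an integer -/
def ofInt (n : ℤ) : CB := ⟨n * sc, 0, 0⟩

lemma mem_ofInt (n : ℤ) : (ofInt n).mem (n : ℂ) := by
  unfold mem ofInt ctr
  have : (sc : ℂ) * (n : ℂ) - (((n * sc : ℤ) : ℂ) + ((0 : ℤ) : ℂ) * Complex.I) = 0 := by
    push_cast; ring
  simp only at *
  rw [this]
  simp

lemma mem_add {a b : CB} {z w : ℂ} (ha : a.mem z) (hb : b.mem w) : (a.add b).mem (z + w) := by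
  unfold mem at *
  have : (sc : ℂ) * (z + w) - (a.add b).ctr = ((sc : ℂ) * z - a.ctr) + ((sc : ℂ) * w - b.ctr) := by
    unfold ctr add; push_cast; ring
  rw [this]
  refine (norm_add_le _ _).trans ?_
  simp only [add]
  push_cast
  linarith

lemma mem_sub {a b : CB} {z w : ℂ} (ha : a.mem z) (hb : b.mem w) : (a.sub b).mem (z - w) := by
  unfold mem at *
  have : (sc : ℂ) * (z - w) - (a.sub b).ctr = ((sc : ℂ) * z - a.ctr) - ((sc : ℂ) * w - b.ctr) := by
    unfold ctr sub; push_cast; ring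
  rw [this]
  refine (norm_sub_le _ _).trans ?_
  simp only [sub]
  push_cast
  linarith

lemma norm_gauss_le (x y : ℤ) : ‖(x : ℂ) + (y : ℂ) * Complex.I‖ ≤ ((x.natAbs + y.natAbs : ℕ) : ℝ) := by
  refine (norm_add_le _ _).trans ?_
  rw [norm_mul, Complex.norm_I, mul_one]
  have h1 : ‖(x : ℂ)‖ = ((x.natAbs : ℕ) : ℝ) := by
    rw [Complex.norm_intCast, Nat.cast_natAbs, Int.cast_abs]
  have h2 : ‖(y : ℂ)‖ = ((y.natAbs : ℕ) : ℝ) := by
    rw [Complex.norm_intCast, Nat.cast_natAbs, Int.cast_abs]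
  rw [h1, h2]
  push_cast
  exact le_rfl

lemma norm_ctr_le (a : CB) : ‖a.ctr‖ ≤ ((a.re.natAbs + a.im.natAbs : ℕ) : ℝ) := norm_gauss_le _ _

lemma mem_mulG {a : CB} {z : ℂ} (ha : a.mem z) (x y : ℤ) :
    (a.mulG x y).mem (z * ((x : ℂ) + (y : ℂ) * Complex.I)) := by
  unfold mem at *
  have : (sc : ℂ) * (z * ((x : ℂ) + (y : ℂ) * Complex.I)) - (a.mulG x y).ctr =
      ((sc : ℂ) * z - a.ctr) * ((x : ℂ) + (y : ℂ) * Complex.I) := by
    unfold ctr mulG
    push_cast
    ring_nf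
    rw [Complex.I_sq]
    ring
  rw [this, norm_mul]
  simp only [mulG]
  push_cast
  have h := norm_gauss_le x y
  push_cast at h
  exact mul_le_mul ha h (norm_nonneg _) (by positivity)

lemma floor_close (a : ℤ) {d : ℕ} (hd : 0 < d) : |(a : ℝ) / d - ((a / (d : ℤ) : ℤ) : ℝ)| ≤ 1 := by
  have hd' : (0 : ℝ) < d := by exact_mod_cast hd
  have h1 := Int.emod_add_mul_ediv a (d : ℤ)
  have h2 := Int.emod_nonneg a (show (d : ℤ) ≠ 0 by omega)
  have h3 := Int.emod_lt_of_pos a (show (0 : ℤ) < d by omega)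
  have h1' : ((a % (d : ℤ) : ℤ) : ℝ) + (d : ℝ) * ((a / (d : ℤ) : ℤ) : ℝ) = (a : ℝ) := by
    exact_mod_cast h1
  have h2' : (0 : ℝ) ≤ ((a % (d : ℤ) : ℤ) : ℝ) := by exact_mod_cast h2
  have h3' : ((a % (d : ℤ) : ℤ) : ℝ) ≤ (d : ℝ) := by exact_mod_cast h3.le
  have h4 : (a : ℝ) / d - ((a / (d : ℤ) : ℤ) : ℝ) = ((a % (d : ℤ) : ℤ) : ℝ) / d := by
    field_simp
    linarith
  rw [h4, abs_le]
  constructor
  · have : 0 ≤ ((a % (d : ℤ) : ℤ) : ℝ) / d := div_nonneg h2' hd'.le
    linarith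
  · rw [div_le_one hd']
    exact h3'

lemma nat_floor_close (a : ℕ) {d : ℕ} (hd : 0 < d) : (a : ℝ) / d ≤ ((a / d : ℕ) : ℝ) + 1 := by
  have hd' : (0 : ℝ) < d := by exact_mod_cast hd
  rw [div_le_iff₀ hd']
  have h := Nat.lt_div_mul_add hd (a := a)
  have h2 : a ≤ (a / d + 1) * d := by
    rw [add_mul, one_mul]
    omega
  have : (a : ℝ) ≤ (((a / d + 1) * d : ℕ) : ℝ) := by exact_mod_cast h2
  push_cast at this
  exact this

/-- rounding of both components -/
lemma round_close (x y : ℤ) {d : ℕ} (hd : 0 < d) :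
    ‖((x : ℂ) + (y : ℂ) * Complex.I) / (d : ℂ) -
      (((x / (d : ℤ) : ℤ) : ℂ) + ((y / (d : ℤ) : ℤ) : ℂ) * Complex.I)‖ ≤ 2 := by
  have h : ((x : ℂ) + (y : ℂ) * Complex.I) / (d : ℂ) -
      (((x / (d : ℤ) : ℤ) : ℂ) + ((y / (d : ℤ) : ℤ) : ℂ) * Complex.I) =
      (((x : ℝ) / d - ((x / (d : ℤ) : ℤ) : ℝ) : ℝ) : ℂ) +
        (((y : ℝ) / d - ((y / (d : ℤ) : ℤ) : ℝ) : ℝ) : ℂ) * Complex.I := by
    push_cast
    ring
  rw [h]
  refine (norm_add_le _ _).trans ?_
  rw [norm_mul, Complex.norm_I, mul_one, Complex.norm_real, Complex.norm_real,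
    Real.norm_eq_abs, Real.norm_eq_abs]
  have h1 := floor_close x hd
  have h2 := floor_close y hd
  linarith

lemma mem_divN {a : CB} {z : ℂ} (ha : a.mem z) {d : ℕ} (hd : 0 < d) :
    (a.divN d).mem (z / (d : ℂ)) := by
  unfold mem at *
  have hd' : (0 : ℝ) < d := by exact_mod_cast hd
  have hdc : (d : ℂ) ≠ 0 := by exact_mod_cast hd.ne'
  have : (sc : ℂ) * (z / (d : ℂ)) - (a.divN d).ctr =
      ((sc : ℂ) * z - a.ctr) / (d : ℂ) + (a.ctr / (d : ℂ) - (a.divN d).ctr) := by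
    ring
  rw [this]
  refine (norm_add_le _ _).trans ?_
  have h1 : ‖((sc : ℂ) * z - a.ctr) / (d : ℂ)‖ ≤ (a.rad : ℝ) / d := by
    rw [norm_div, Complex.norm_natCast]
    exact div_le_div_of_nonneg_right ha hd'.le
  have h2 : ‖a.ctr / (d : ℂ) - (a.divN d).ctr‖ ≤ 2 := round_close a.re a.im hd
  have h3 := nat_floor_close a.rad hd
  have hrad : (((a.divN d).rad : ℕ) : ℝ) = ((a.rad / d : ℕ) : ℝ) + 3 := by
    simp only [divN]
    push_cast
    ring
  rw [hrad]
  linarith

lemma mem_mul {a b : CB} {z w : ℂ} (ha : a.mem z) (hb : b.mem w) : (a.mul b).mem (z * w) := by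
  unfold mem at *
  have hs : (sc : ℂ) ≠ 0 := by exact_mod_cast sc_pos.ne'
  set Z := (sc : ℂ) * z with hZ
  set W := (sc : ℂ) * w with hW
  have hprod : (sc : ℂ) * (z * w) = Z * W / (sc : ℂ) := by
    rw [hZ, hW]; field_simp
  have hc : a.ctr * b.ctr = ((a.re * b.re - a.im * b.im : ℤ) : ℂ) +
      ((a.re * b.im + a.im * b.re : ℤ) : ℂ) * Complex.I := by
    unfold ctr
    push_cast
    ring_nf
    rw [Complex.I_sq]
    ring
  have hsplit : (sc : ℂ) * (z * w) - (a.mul b).ctr =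
      (a.ctr * (W - b.ctr) + b.ctr * (Z - a.ctr) + (Z - a.ctr) * (W - b.ctr)) / (sc : ℂ) +
      (a.ctr * b.ctr / (sc : ℂ) - (a.mul b).ctr) := by
    rw [hprod]; ring
  rw [hsplit]
  refine (norm_add_le _ _).trans ?_
  have h2 : ‖a.ctr * b.ctr / (sc : ℂ) - (a.mul b).ctr‖ ≤ 2 := by
    rw [hc]
    exact round_close _ _ sc_pos
  set N : ℕ := (a.re.natAbs + a.im.natAbs) * b.rad + (b.re.natAbs + b.im.natAbs) * a.rad +
      a.rad * b.rad with hN
  have h1 : ‖(a.ctr * (W - b.ctr) + b.ctr * (Z - a.ctr) + (Z - a.ctr) * (W - b.ctr)) /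
      (sc : ℂ)‖ ≤ (N : ℝ) / sc := by
    rw [norm_div, Complex.norm_natCast]
    apply div_le_div_of_nonneg_right _ scR_pos.le
    refine (norm_add_le _ _).trans ?_
    have e1 : ‖a.ctr * (W - b.ctr) + b.ctr * (Z - a.ctr)‖ ≤
        ((a.re.natAbs + a.im.natAbs : ℕ) : ℝ) * b.rad +
        ((b.re.natAbs + b.im.natAbs : ℕ) : ℝ) * a.rad := by
      refine (norm_add_le _ _).trans ?_
      rw [norm_mul, norm_mul]
      apply add_le_add
      · exact mul_le_mul (norm_ctr_le a) hb (norm_nonneg _) (by positivity)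
      · exact mul_le_mul (norm_ctr_le b) ha (norm_nonneg _) (by positivity)
    have e2 : ‖(Z - a.ctr) * (W - b.ctr)‖ ≤ (a.rad : ℝ) * b.rad := by
      rw [norm_mul]
      exact mul_le_mul ha hb (norm_nonneg _) (by positivity)
    rw [hN]
    push_cast at e1 ⊢
    linarith
  have h3 := nat_floor_close N sc_pos
  have hrad : (((a.mul b).rad : ℕ) : ℝ) = ((N / sc : ℕ) : ℝ) + 3 := by
    simp only [mul, hN]
    push_cast
    ring
  rw [hrad]
  linarith

/-- division by the nonzero Gaussian rational `(x + i y) / d` -/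
def divS (a : CB) (x y : ℤ) (d : ℕ) : CB :=
  (a.mulG (d * x) (-(d * y))).divN (x * x + y * y).natAbs

lemma mem_divS {a : CB} {z : ℂ} (ha : a.mem z) {x y : ℤ} (hy : y ≠ 0) {d : ℕ} (hd : 0 < d) :
    (a.divS x y d).mem (z / (((x : ℂ) + (y : ℂ) * Complex.I) / (d : ℂ))) := by
  have hpos : 0 < x * x + y * y := by
    have h1 : 0 ≤ x * x := mul_self_nonneg x
    have h2 : 0 < y * y := mul_self_pos.mpr hy
    linarith
  have hn : 0 < (x * x + y * y).natAbs := Int.natAbs_pos.mpr hpos.ne'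
  have h := mem_divN (mem_mulG ha (d * x) (-(d * y))) hn
  unfold divS
  have hdc : (d : ℂ) ≠ 0 := by exact_mod_cast hd.ne'
  have hcast : (((x * x + y * y).natAbs : ℕ) : ℂ) = (x : ℂ) * x + (y : ℂ) * y := by
    have : (((x * x + y * y).natAbs : ℕ) : ℤ) = x * x + y * y := Int.natAbs_of_nonneg hpos.le
    have h2 : (((x * x + y * y).natAbs : ℕ) : ℂ) = ((x * x + y * y : ℤ) : ℂ) := by
      rw [← Int.cast_natCast, this]
    rw [h2]
    push_cast
    ring
  have hne : (x : ℂ) * x + (y : ℂ) * y ≠ 0 := by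
    have : ((x * x + y * y : ℤ) : ℂ) ≠ 0 := by exact_mod_cast hpos.ne'
    push_cast at this
    exact this
  have hfac : (x : ℂ) * x + (y : ℂ) * y =
      ((x : ℂ) + (y : ℂ) * Complex.I) * ((x : ℂ) - (y : ℂ) * Complex.I) := by
    ring_nf
    rw [Complex.I_sq]
    ring
  have hxy : (x : ℂ) + (y : ℂ) * Complex.I ≠ 0 := by
    intro h0
    rw [hfac, h0, zero_mul] at hne
    exact hne rfl
  have heq : z / (((x : ℂ) + (y : ℂ) * Complex.I) / (d : ℂ)) =
      z * (((d * x : ℤ) : ℂ) + ((-(d * y) : ℤ) : ℂ) * Complex.I) /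
        (((x * x + y * y).natAbs : ℕ) : ℂ) := by
    rw [hcast, hfac]
    have hxy' : (x : ℂ) - (y : ℂ) * Complex.I ≠ 0 := by
      intro h0
      rw [hfac, h0, mul_zero] at hne
      exact hne rfl
    rw [div_div_eq_mul_div, div_eq_div_iff hxy (mul_ne_zero hxy hxy')]
    push_cast
    ring
  rw [heq]
  exact h

/-- power by repeated multiplication -/
def pow (a : CB) : ℕ → CB
  | 0 => ofInt 1
  | n + 1 => (pow a n).mul a

lemma mem_pow {a : CB} {z : ℂ} (ha : a.mem z) (n : ℕ) : (a.pow n).mem (z ^ n) := by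
  induction n with
  | zero =>
    have := mem_ofInt 1
    simpa [pow] using this
  | succ n ih =>
    rw [pow_succ]
    exact mem_mul ih ha

/-- repeated squaring -/
def sq (a : CB) : ℕ → CB
  | 0 => a
  | n + 1 => sq (a.mul a) n

lemma mem_sq {a : CB} {z : ℂ} (ha : a.mem z) (n : ℕ) : (a.sq n).mem (z ^ (2 ^ n)) := by
  induction n generalizing a z with
  | zero => simpa [sq] using ha
  | succ n ih =>
    have h := ih (mem_mul ha ha)
    rw [pow_succ', pow_mul]
    rw [pow_two]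
    exact h

/-- Taylor loop for the exponential -/
def expLoop (v : CB) : ℕ → ℕ → CB → CB → CB
  | 0, _, _, acc => acc
  | fuel + 1, k, term, acc => expLoop v fuel (k + 1) ((term.mul v).divN (k + 1)) (acc.add term)

lemma mem_expLoop {v : CB} {w : ℂ} (hv : v.mem w) (fuel k : ℕ) {term acc : CB}
    (ht : term.mem (w ^ k / (k.factorial : ℂ)))
    (ha : acc.mem (∑ j ∈ Finset.range k, w ^ j / (j.factorial : ℂ))) :
    (expLoop v fuel k term acc).mem (∑ j ∈ Finset.range (k + fuel), w ^ j / (j.factorial : ℂ)) := by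
  induction fuel generalizing k term acc with
  | zero => simpa [expLoop] using ha
  | succ fuel ih =>
    have h1 : (acc.add term).mem (∑ j ∈ Finset.range (k + 1), w ^ j / (j.factorial : ℂ)) := by
      rw [Finset.sum_range_succ]
      exact mem_add ha ht
    have h2 : ((term.mul v).divN (k + 1)).mem (w ^ (k + 1) / ((k + 1).factorial : ℂ)) := by
      have h3 := mem_divN (mem_mul ht hv) (Nat.succ_pos k)
      have h4 : w ^ k / (k.factorial : ℂ) * w / ((k.succ : ℕ) : ℂ) =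
          w ^ (k + 1) / ((k + 1).factorial : ℂ) := by
        rw [Nat.factorial_succ, pow_succ]
        push_cast
        have hk : (k.factorial : ℂ) ≠ 0 := by exact_mod_cast k.factorial_ne_zero
        have hk1 : (k : ℂ) + 1 ≠ 0 := by exact_mod_cast Nat.succ_ne_zero k
        field_simp
      rw [h4] at h3
      exact h3
    have := ih (k + 1) h2 h1
    rw [show k + 1 + fuel = k + (fuel + 1) by omega] at this
    exact this

/-- enlarge the radius -/
def widen (a : CB) (r : ℕ) : CB := ⟨a.re, a.im, a.rad + r⟩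

lemma mem_widen {a : CB} {z w : ℂ} {r : ℕ} (ha : a.mem z) (h : ‖(sc : ℂ) * w - (sc : ℂ) * z‖ ≤ r) :
    (a.widen r).mem w := by
  unfold mem at *
  have : (sc : ℂ) * w - (a.widen r).ctr = ((sc : ℂ) * w - (sc : ℂ) * z) + ((sc : ℂ) * z - a.ctr) := by
    unfold widen ctr; ring
  rw [this]
  refine (norm_add_le _ _).trans ?_
  simp only [widen]
  push_cast
  linarith

/-- upper bound for the scaled norm -/
def nup (a : CB) : ℕ := a.re.natAbs + a.im.natAbs + a.rad

lemma norm_le_nup {a : CB} {z : ℂ} (ha : a.mem z) : (sc : ℝ) * ‖z‖ ≤ a.nup := by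
  unfold mem at ha
  have h1 : (sc : ℝ) * ‖z‖ = ‖(sc : ℂ) * z‖ := by
    rw [norm_mul, Complex.norm_natCast]
  rw [h1]
  have h2 : (sc : ℂ) * z = ((sc : ℂ) * z - a.ctr) + a.ctr := by ring
  rw [h2]
  refine (norm_add_le _ _).trans ?_
  have := norm_ctr_le a
  unfold nup
  push_cast at *
  linarith

/-- exponential: halve `j` times, `50` Taylor terms, square `j` times -/
def exp (v : CB) (j : ℕ) : CB :=
  ((expLoop (v.divN (2 ^ j)) 50 0 (ofInt 1) (ofInt 0)).widen
    (10000000000000)).sq j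

lemma fact_bound : 2 * (sc : ℝ) / ((50 : ℕ).factorial : ℝ) ≤ 10000000000000 := by
  have : ((50 : ℕ).factorial : ℝ) = 30414093201713378043612608166064768844377641568960512000000000000 := by
    norm_num [Nat.factorial]
  rw [this, div_le_iff₀ (by norm_num)]
  unfold sc
  norm_num

lemma mem_exp {v : CB} {w : ℂ} (hv : v.mem w) {j : ℕ} (hn : (v.divN (2 ^ j)).nup ≤ sc) :
    (v.exp j).mem (Complex.exp w) := by
  have hd : 0 < 2 ^ j := by positivity
  have h1 := mem_divN hv hd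
  set u := w / ((2 ^ j : ℕ) : ℂ) with hu
  have hu1 : ‖u‖ ≤ 1 := by
    have h2 := norm_le_nup h1
    have h3 : ((v.divN (2 ^ j)).nup : ℝ) ≤ sc := by exact_mod_cast hn
    have h4 : (sc : ℝ) * ‖u‖ ≤ sc * 1 := by linarith
    exact le_of_mul_le_mul_left h4 scR_pos
  have h5 : (expLoop (v.divN (2 ^ j)) 50 0 (ofInt 1) (ofInt 0)).mem
      (∑ k ∈ Finset.range 50, u ^ k / (k.factorial : ℂ)) := by
    have := mem_expLoop h1 50 0 (term := ofInt 1) (acc := ofInt 0)
      (by simpa using mem_ofInt 1) (by simpa using mem_ofInt 0)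
    simpa using this
  have h6 : ((expLoop (v.divN (2 ^ j)) 50 0 (ofInt 1) (ofInt 0)).widen
    (10000000000000)).mem (Complex.exp u) := by
    apply mem_widen h5
    rw [← mul_sub, norm_mul, Complex.norm_natCast]
    have h7 := Complex.exp_bound' (x := u) (n := 50) (by
      rw [div_le_div_iff₀ (by positivity) (by norm_num)]
      push_cast
      linarith)
    have h8 : ‖u‖ ^ 50 ≤ 1 := pow_le_one₀ (norm_nonneg _) hu1
    have h9 : ‖u‖ ^ 50 / ((50 : ℕ).factorial : ℝ) * 2 ≤ 1 / ((50 : ℕ).factorial : ℝ) * 2 := by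
      apply mul_le_mul_of_nonneg_right _ (by norm_num)
      exact div_le_div_of_nonneg_right h8 (by positivity)
    calc (sc : ℝ) * ‖Complex.exp u - ∑ k ∈ Finset.range 50, u ^ k / (k.factorial : ℂ)‖
        ≤ sc * (1 / ((50 : ℕ).factorial : ℝ) * 2) :=
          mul_le_mul_of_nonneg_left (h7.trans h9) scR_pos.le
      _ = 2 * (sc : ℝ) / ((50 : ℕ).factorial : ℝ) := by ring
      _ ≤ _ := by exact_mod_cast fact_bound
  have h10 := mem_sq h6 j
  have h11 : Complex.exp u ^ (2 ^ j) = Complex.exp w := by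
    rw [← Complex.exp_nat_mul]
    congr 1
    rw [hu]
    have : ((2 ^ j : ℕ) : ℂ) ≠ 0 := by exact_mod_cast hd.ne'
    field_simp
  rw [h11] at h10
  exact h10

end CB

end Pool.Agent.W_MP_d99112_an
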