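import Pool.Agent.W_MP_d99112_an.Approx

/-!
# Soundness of the ball evaluation and the numerical certificates
-/

namespace Pool.Agent.W_MP_d99112_an

open Complex CB

set_option maxRecDepth 100000

lemma mem_neg {a : CB} {z : ℂ} (ha : a.mem z) : (CB.mk (-a.re) (-a.im) a.rad).mem (-z) := by
  unfold CB.mem at *
  have : (sc : ℂ) * (-z) - (CB.mk (-a.re) (-a.im) a.rad).ctr = -((sc : ℂ) * z - a.ctr) := by
    unfold CB.ctr; push_cast; ring
  rw [this, norm_neg]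
  exact ha

lemma mem_qB : qB.mem (Complex.exp (-(Real.pi : ℂ))) := by
  apply CB.mem_exp (mem_neg mem_piB)
  decide +kernel

/-- the parameter `σ` -/
noncomputable def sig (x y : ℤ) (den : ℕ) : ℂ := ((x : ℂ) + (y : ℂ) * I) / (den : ℂ)

lemma mem_gB {x y : ℤ} {den : ℕ} (hy : y ≠ 0) (hden : 0 < den) (N2 D X : ℕ) {pre : CB} {E : ℂ}
    (hE : pre.mem E) :
    (gB x y den N2 D X pre).1.mem (E * (-2 * ((Real.pi : ℂ) * N2) +
      ((Real.pi : ℂ) * N2) * (2 * sig x y den - 3) *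
        TT (sig x y den) ((Real.pi : ℂ) * N2 * X) D)) ∧
    (gB x y den N2 D X pre).2.mem (uu (sig x y den) ((Real.pi : ℂ) * N2 * X) D) := by
  have hk : (piB.mulG N2 0).mem ((Real.pi : ℂ) * N2) := by
    have := mem_mulG mem_piB N2 0
    simpa using this
  have hk2 : (piB.mulG N2 0 |>.mulG X 0).mem ((Real.pi : ℂ) * N2 * X) := by
    have := mem_mulG hk X 0
    simpa using this
  have ht := mem_tB (x := x) (yy := y) hy hden hk2 D
  have hdc : (den : ℂ) ≠ 0 := by exact_mod_cast hden.ne'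
  refine ⟨?_, ht.2⟩
  have h1 := mem_divN (mem_mulG (mem_mul hk ht.1) (2 * x - 3 * den) (2 * y)) hden
  have h2 : (piB.mulG N2 0 |>.mulG 2 0).mem ((Real.pi : ℂ) * N2 * 2) := by
    have := mem_mulG hk 2 0
    simpa using this
  have h3 := mem_mul hE (mem_sub h1 h2)
  have h4 : E * (-2 * ((Real.pi : ℂ) * N2) +
      ((Real.pi : ℂ) * N2) * (2 * sig x y den - 3) *
        TT (sig x y den) ((Real.pi : ℂ) * N2 * X) D) =
      E * ((Real.pi : ℂ) * N2 * TT (((x : ℂ) + (y : ℂ) * I) / (den : ℂ))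
        ((Real.pi : ℂ) * N2 * X) D * (((2 * x - 3 * den : ℤ) : ℂ) + ((2 * y : ℤ) : ℂ) * I) /
          (den : ℂ) - (Real.pi : ℂ) * N2 * 2) := by
    unfold sig
    push_cast
    field_simp
    ring
  rw [h4]
  exact h3

lemma EE_RR (n : ℕ) (σ : ℂ) :
    EE (kap n) σ RR = Complex.exp (((Real.log 2 : ℝ) : ℂ) * (3 * σ)) *
      Complex.exp (-(Real.pi : ℂ)) ^ (8 * (n + 1) ^ 2) := by
  unfold EE
  rw [exp_two_RR, ← Complex.exp_nat_mul, ← Complex.exp_add]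
  congr 1
  unfold kap RR
  push_cast
  ring

lemma EE_zero (n : ℕ) (σ : ℂ) :
    EE (kap n) σ 0 = Complex.exp (-(Real.pi : ℂ)) ^ ((n + 1) ^ 2) := by
  unfold EE
  rw [← Complex.exp_nat_mul]
  congr 1
  unfold kap
  push_cast
  simp
  ring

lemma kap_cast (n : ℕ) : (kap n : ℂ) = (Real.pi : ℂ) * ((n + 1) ^ 2 : ℕ) := by
  unfold kap; push_cast; ring

lemma yy_RR (n : ℕ) : yy (kap n) RR = (Real.pi : ℂ) * ((n + 1) ^ 2 : ℕ) * (8 : ℕ) := by
  unfold yy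
  rw [exp_two_RR, kap_cast]
  push_cast
  ring

lemma yy_zero (n : ℕ) : yy (kap n) 0 = (Real.pi : ℂ) * ((n + 1) ^ 2 : ℕ) * (1 : ℕ) := by
  unfold yy
  rw [kap_cast]
  simp

/-- side conditions for one sign -/
def okB (x y : ℤ) (den D1 D2 : ℕ) : Bool :=
  decide (((vB x y den).divN (2 ^ 6)).nup ≤ sc) &&
  decide ((tB x y den ((piB.mulG 1 0).mulG 8 0) D1).2.nup * 10 ^ 32 ≤ sc) &&
  decide ((tB x y den ((piB.mulG 4 0).mulG 8 0) D2).2.nup * 10 ^ 32 ≤ sc)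

lemma okB_exp {x y : ℤ} {den D1 D2 : ℕ} (h : okB x y den D1 D2 = true) :
    ((vB x y den).divN (2 ^ 6)).nup ≤ sc := by
  simp only [okB, Bool.and_eq_true, decide_eq_true_eq] at h
  exact h.1.1

lemma norm_le_of_nup {b : CB} {w : ℂ} (hb : b.mem w) (h : b.nup * 10 ^ 32 ≤ sc) :
    ‖w‖ ≤ 1e-32 := by
  have h1 := norm_le_nup hb
  have h2 : ((b.nup : ℕ) : ℝ) * 10 ^ 32 ≤ sc := by exact_mod_cast h
  have h3 : (sc : ℝ) * (‖w‖ * 10 ^ 32) ≤ sc * 1 := by nlinarith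
  have h4 := le_of_mul_le_mul_left h3 scR_pos
  have h5 : (1e-32 : ℝ) * 10 ^ 32 = 1 := by norm_num
  nlinarith

lemma okB_u1 {x y : ℤ} {den D1 D2 : ℕ} (hy : y ≠ 0) (hden : 0 < den)
    (h : okB x y den D1 D2 = true) : ‖uu (sig x y den) (yy (kap 0) RR) D1‖ ≤ 1e-32 := by
  simp only [okB, Bool.and_eq_true, decide_eq_true_eq] at h
  have hk : ((piB.mulG 1 0).mulG 8 0).mem (yy (kap 0) RR) := by
    rw [yy_RR]
    have := mem_mulG (mem_mulG mem_piB 1 0) 8 0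
    simpa using this
  exact norm_le_of_nup (mem_tB (x := x) (yy := y) hy hden hk D1).2 h.1.2

lemma okB_u2 {x y : ℤ} {den D1 D2 : ℕ} (hy : y ≠ 0) (hden : 0 < den)
    (h : okB x y den D1 D2 = true) : ‖uu (sig x y den) (yy (kap 1) RR) D2‖ ≤ 1e-32 := by
  simp only [okB, Bool.and_eq_true, decide_eq_true_eq] at h
  have hk : ((piB.mulG 4 0).mulG 8 0).mem (yy (kap 1) RR) := by
    rw [yy_RR]
    have := mem_mulG (mem_mulG mem_piB 4 0) 8 0
    simpa [show ((1 : ℂ) + 1) ^ 2 = 4 by norm_num] using this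
  exact norm_le_of_nup (mem_tB (x := x) (yy := y) hy hden hk D2).2 h.2

lemma mem_dB {x y : ℤ} {den : ℕ} (hy : y ≠ 0) (hden : 0 < den) (n D : ℕ)
    (hexp : ((vB x y den).divN (2 ^ 6)).nup ≤ sc) :
    (dB x y den ((n + 1) ^ 2) D).mem
      (GG (kap n) (sig x y den) D RR - GG (kap n) (sig x y den) D 0) := by
  have hdc : (den : ℂ) ≠ 0 := by exact_mod_cast hden.ne'
  have hv : (vB x y den).mem (((Real.log 2 : ℝ) : ℂ) * (3 * sig x y den)) := by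
    have h1 := mem_divN (mem_mulG mem_lnB (3 * x) (3 * y)) hden
    have h2 : ((Real.log 2 : ℝ) : ℂ) * (3 * sig x y den) =
        ((Real.log 2 : ℝ) : ℂ) * (((3 * x : ℤ) : ℂ) + ((3 * y : ℤ) : ℂ) * I) / (den : ℂ) := by
      unfold sig
      push_cast
      field_simp
    rw [h2]
    exact h1
  have hpre8 : (((vB x y den).exp 6).mul (qB.pow (8 * (n + 1) ^ 2))).mem
      (EE (kap n) (sig x y den) RR) := by
    rw [EE_RR]
    exact mem_mul (mem_exp hv hexp) (mem_pow mem_qB _)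
  have hpre1 : (qB.pow ((n + 1) ^ 2)).mem (EE (kap n) (sig x y den) 0) := by
    rw [EE_zero]
    exact mem_pow mem_qB _
  have h8 := (mem_gB (x := x) (y := y) hy hden ((n + 1) ^ 2) D 8 hpre8).1
  have h1 := (mem_gB (x := x) (y := y) hy hden ((n + 1) ^ 2) D 1 hpre1).1
  have e8 : GG (kap n) (sig x y den) D RR = EE (kap n) (sig x y den) RR *
      (-2 * ((Real.pi : ℂ) * ((n + 1) ^ 2 : ℕ)) +
      ((Real.pi : ℂ) * ((n + 1) ^ 2 : ℕ)) * (2 * sig x y den - 3) *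
        TT (sig x y den) ((Real.pi : ℂ) * ((n + 1) ^ 2 : ℕ) * (8 : ℕ)) D) := by
    unfold GG
    rw [yy_RR, kap_cast]
  have e1 : GG (kap n) (sig x y den) D 0 = EE (kap n) (sig x y den) 0 *
      (-2 * ((Real.pi : ℂ) * ((n + 1) ^ 2 : ℕ)) +
      ((Real.pi : ℂ) * ((n + 1) ^ 2 : ℕ)) * (2 * sig x y den - 3) *
        TT (sig x y den) ((Real.pi : ℂ) * ((n + 1) ^ 2 : ℕ) * (1 : ℕ)) D) := by
    unfold GG
    rw [yy_zero, kap_cast]
  rw [e8, e1]
  exact mem_sub h8 h1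

/-- ball for `F` up to the analytic error -/
def FB (zr zi : ℤ) (den D1 D2 : ℕ) : CB :=
  ((((dB (5 * den - 2 * zi) (2 * zr) (4 * den) 1 D1).add
    (dB (5 * den + 2 * zi) (-(2 * zr)) (4 * den) 1 D1)).add
    (dB (5 * den - 2 * zi) (2 * zr) (4 * den) 4 D2)).add
    (dB (5 * den + 2 * zi) (-(2 * zr)) (4 * den) 4 D2)).divN 2

lemma sp_eq (zr zi : ℤ) {den : ℕ} (hden : 0 < den) :
    sp (sig zr zi den) = sig (5 * den - 2 * zi) (2 * zr) (4 * den) := by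
  have hdc : (den : ℂ) ≠ 0 := by exact_mod_cast hden.ne'
  unfold sp sig
  push_cast
  field_simp
  ring_nf
  rw [I_sq]
  ring

lemma sm_eq (zr zi : ℤ) {den : ℕ} (hden : 0 < den) :
    sm (sig zr zi den) = sig (5 * den + 2 * zi) (-(2 * zr)) (4 * den) := by
  have hdc : (den : ℂ) ≠ 0 := by exact_mod_cast hden.ne'
  unfold sm sig
  push_cast
  field_simp
  ring_nf
  rw [I_sq]
  ring

lemma mem_FB {zr zi : ℤ} {den D1 D2 : ℕ} (hden : 0 < den) (hzr : zr ≠ 0)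
    (hok1 : okB (5 * den - 2 * zi) (2 * zr) (4 * den) D1 D2 = true)
    (hok2 : okB (5 * den + 2 * zi) (-(2 * zr)) (4 * den) D1 D2 = true) :
    (FB zr zi den D1 D2).mem (VV 0 (sig zr zi den) D1 + VV 1 (sig zr zi den) D2) := by
  have hy1 : 2 * zr ≠ 0 := by omega
  have hy2 : -(2 * zr) ≠ 0 := by omega
  have hd4 : 0 < 4 * den := by omega
  have h1 := mem_dB (x := 5 * den - 2 * zi) hy1 hd4 0 D1 (okB_exp hok1)
  have h2 := mem_dB (x := 5 * den + 2 * zi) hy2 hd4 0 D1 (okB_exp hok2)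
  have h3 := mem_dB (x := 5 * den - 2 * zi) hy1 hd4 1 D2 (okB_exp hok1)
  have h4 := mem_dB (x := 5 * den + 2 * zi) hy2 hd4 1 D2 (okB_exp hok2)
  have h5 := mem_divN (mem_add (mem_add (mem_add h1 h2) h3) h4) (d := 2) (by norm_num)
  have h6 : VV 0 (sig zr zi den) D1 + VV 1 (sig zr zi den) D2 =
      (GG (kap 0) (sig (5 * den - 2 * zi) (2 * zr) (4 * den)) D1 RR -
      GG (kap 0) (sig (5 * den - 2 * zi) (2 * zr) (4 * den)) D1 0 +
      (GG (kap 0) (sig (5 * den + 2 * zi) (-(2 * zr)) (4 * den)) D1 RR -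
      GG (kap 0) (sig (5 * den + 2 * zi) (-(2 * zr)) (4 * den)) D1 0) +
      (GG (kap 1) (sig (5 * den - 2 * zi) (2 * zr) (4 * den)) D2 RR -
      GG (kap 1) (sig (5 * den - 2 * zi) (2 * zr) (4 * den)) D2 0) +
      (GG (kap 1) (sig (5 * den + 2 * zi) (-(2 * zr)) (4 * den)) D2 RR -
      GG (kap 1) (sig (5 * den + 2 * zi) (-(2 * zr)) (4 * den)) D2 0)) / ((2 : ℕ) : ℂ) := by
    unfold VV
    rw [sp_eq zr zi hden, sm_eq zr zi hden]
    push_cast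
    ring
  rw [h6]
  exact h5

lemma sig_re (zr zi : ℤ) (den : ℕ) : (sig zr zi den).re = (zr : ℝ) / den := by
  unfold sig
  rw [show (den : ℂ) = ((den : ℝ) : ℂ) by push_cast; rfl, Complex.div_ofReal_re]
  simp

lemma sig_im (zr zi : ℤ) (den : ℕ) : (sig zr zi den).im = (zi : ℝ) / den := by
  unfold sig
  rw [show (den : ℂ) = ((den : ℝ) : ℂ) by push_cast; rfl, Complex.div_ofReal_im]
  simp

/-- the approximation in terms of balls -/
lemma F_ball {zr zi : ℤ} {den D1 D2 : ℕ} (hden : 0 < den) (hzr : zr ≠ 0)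
    (hok1 : okB (5 * den - 2 * zi) (2 * zr) (4 * den) D1 D2 = true)
    (hok2 : okB (5 * den + 2 * zi) (-(2 * zr)) (4 * den) D1 D2 = true) {b c : ℝ}
    (hb : |(zi : ℝ) / den| ≤ b) (hb' : b ≤ 25.5) (hc : 0 < c)
    (hcb : c ≤ 18 * Real.pi - 9 / 2 - b) (hrez : |(zr : ℝ) / den| ≤ 31) :
    ∃ V : ℂ, (FB zr zi den D1 D2).mem V ∧ ‖F RR (sig zr zi den) - V‖ ≤ 4e-14 + 1.71e-9 / c := by
  refine ⟨_, mem_FB hden hzr hok1 hok2, ?_⟩
  have hy1 : 2 * zr ≠ 0 := by omega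
  have hy2 : -(2 * zr) ≠ 0 := by omega
  have hd4 : 0 < 4 * den := by omega
  have hdr : (den : ℝ) ≠ 0 := by exact_mod_cast hden.ne'
  have hzr' : (zr : ℝ) ≠ 0 := by exact_mod_cast hzr
  apply F_approx (b := b) (sig zr zi den) (by rw [sig_im]; exact hb) hb' hc hcb
    (by rw [sig_re]; exact div_ne_zero hzr' hdr) (by rw [sig_re]; exact hrez)
  · rw [sp_eq zr zi hden]; exact okB_u1 hy1 hd4 hok1
  · rw [sm_eq zr zi hden]; exact okB_u1 hy2 hd4 hok2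
  · rw [sp_eq zr zi hden]; exact okB_u2 hy1 hd4 hok1
  · rw [sm_eq zr zi hden]; exact okB_u2 hy2 hd4 hok2

/-- lower bound of the norm from a ball -/
lemma norm_ge_of_ball {a : CB} {w : ℂ} (ha : a.mem w) {L : ℕ}
    (h : ((L : ℤ) + a.rad) ^ 2 ≤ a.re ^ 2 + a.im ^ 2) : (L : ℝ) ≤ sc * ‖w‖ := by
  unfold CB.mem at ha
  have h1 : (sc : ℝ) * ‖w‖ = ‖(sc : ℂ) * w‖ := by
    rw [norm_mul, Complex.norm_natCast]
  rw [h1]
  have h2 : ‖a.ctr‖ ≤ ‖(sc : ℂ) * w‖ + a.rad := by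
    have h3 : a.ctr = (sc : ℂ) * w - ((sc : ℂ) * w - a.ctr) := by ring
    have h4 := norm_sub_le ((sc : ℂ) * w) ((sc : ℂ) * w - a.ctr)
    rw [← h3] at h4
    linarith
  have h5 : ‖a.ctr‖ ^ 2 = (a.re : ℝ) ^ 2 + (a.im : ℝ) ^ 2 := by
    rw [← Complex.normSq_eq_norm_sq, Complex.normSq_apply]
    unfold CB.ctr
    simp
    ring
  have h6 : ((L : ℝ) + a.rad) ^ 2 ≤ (a.re : ℝ) ^ 2 + (a.im : ℝ) ^ 2 := by exact_mod_cast h
  have h7 : (L : ℝ) + a.rad ≤ ‖a.ctr‖ := by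
    rw [← h5] at h6
    exact le_of_sq_le_sq h6 (norm_nonneg _)
  linarith

end Pool.Agent.W_MP_d99112_an
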