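import Pool.Agent.W_MP_d99112_an.Ball

/-!
# Balls around `π` and `log 2`, and the truncated incomplete gamma series
-/

namespace Pool.Agent.W_MP_d99112_an

open CB

/-- ball around `π` -/
def piB : CB :=
  ⟨363771576891766324280507820351327816124857993184264667821064986502891092453091, 0,
    578960446186580977117854925043439539266349923328202820200⟩

lemma mem_piB : piB.mem (Real.pi : ℂ) := by
  unfold CB.mem
  have h : (sc : ℂ) * (Real.pi : ℂ) - piB.ctr =
      (((sc : ℝ) * Real.pi -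
        363771576891766324280507820351327816124857993184264667821064986502891092453091 : ℝ) : ℂ) := by
    unfold CB.ctr piB
    push_cast
    ring
  rw [h, Complex.norm_real, Real.norm_eq_abs, abs_le]
  have h1 := Real.pi_gt_d20
  have h2 := Real.pi_lt_d20
  have h3 : (sc : ℝ) = 115792089237316195423570985008687907853269984665640564039457584007913129639936 := by
    unfold sc; norm_num
  have h4 : (piB.rad : ℝ) = 578960446186580977117854925043439539266349923328202820200 := by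
    unfold piB; norm_num
  rw [h3, h4]
  constructor
  · nlinarith
  · nlinarith

/-- loop for `∑ (1/2)^(i+1)/(i+1)` -/
def logLoop : ℕ → ℕ → CB → CB → CB
  | 0, _, _, acc => acc
  | fuel + 1, k, t, acc => logLoop fuel (k + 1) (t.divN 2) (acc.add (t.divN (k + 1)))

lemma mem_logLoop (fuel k : ℕ) {t acc : CB} (ht : t.mem ((1 / 2 : ℂ) ^ (k + 1)))
    (ha : acc.mem (∑ i ∈ Finset.range k, (1 / 2 : ℂ) ^ (i + 1) / ((i : ℂ) + 1))) :
    (logLoop fuel k t acc).mem
      (∑ i ∈ Finset.range (k + fuel), (1 / 2 : ℂ) ^ (i + 1) / ((i : ℂ) + 1)) := by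
  induction fuel generalizing k t acc with
  | zero => simpa [logLoop] using ha
  | succ fuel ih =>
    have h1 : (acc.add (t.divN (k + 1))).mem
        (∑ i ∈ Finset.range (k + 1), (1 / 2 : ℂ) ^ (i + 1) / ((i : ℂ) + 1)) := by
      rw [Finset.sum_range_succ]
      have := mem_divN ht (Nat.succ_pos k)
      push_cast at this
      exact mem_add ha this
    have h2 : (t.divN 2).mem ((1 / 2 : ℂ) ^ (k + 1 + 1)) := by
      have := mem_divN ht (d := 2) (by norm_num)
      rw [pow_succ]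
      have h3 : (1 / 2 : ℂ) ^ (k + 1) * (1 / 2) = (1 / 2 : ℂ) ^ (k + 1) / ((2 : ℕ) : ℂ) := by
        push_cast; ring
      rw [h3]
      exact this
    have := ih (k + 1) h2 h1
    rw [show k + 1 + fuel = k + (fuel + 1) by omega] at this
    exact this

/-- ball around `log 2` -/
def lnB : CB := (logLoop 200 0 ((ofInt 1).divN 2) (ofInt 0)).widen (2 ^ 57)

lemma mem_lnB : lnB.mem ((Real.log 2 : ℝ) : ℂ) := by
  have h0 : ((ofInt 1).divN 2).mem ((1 / 2 : ℂ) ^ (0 + 1)) := by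
    have := mem_divN (mem_ofInt 1) (d := 2) (by norm_num)
    simpa using this
  have h1 := mem_logLoop 200 0 h0 (acc := ofInt 0) (by simpa using mem_ofInt 0)
  apply mem_widen h1
  have h2 := Real.abs_log_sub_add_sum_range_le (x := 1 / 2) (by rw [abs_of_pos] <;> norm_num) 200
  have h3 : Real.log (1 - 1 / 2) = -Real.log 2 := by
    rw [show (1 : ℝ) - 1 / 2 = 2⁻¹ by norm_num, Real.log_inv]
  rw [h3, abs_of_pos (by norm_num : (0 : ℝ) < 1 / 2)] at h2
  have h4 : (∑ i ∈ Finset.range (0 + 200), (1 / 2 : ℂ) ^ (i + 1) / ((i : ℂ) + 1)) =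
      ((∑ i ∈ Finset.range 200, (1 / 2 : ℝ) ^ (i + 1) / ((i : ℝ) + 1) : ℝ) : ℂ) := by
    push_cast
    rfl
  rw [h4]
  have h5 : (sc : ℂ) * ((Real.log 2 : ℝ) : ℂ) -
      (sc : ℂ) * ((∑ i ∈ Finset.range 200, (1 / 2 : ℝ) ^ (i + 1) / ((i : ℝ) + 1) : ℝ) : ℂ) =
      (((sc : ℝ) * (Real.log 2 -
        ∑ i ∈ Finset.range 200, (1 / 2 : ℝ) ^ (i + 1) / ((i : ℝ) + 1)) : ℝ) : ℂ) := by
    push_cast; ring
  rw [h5, Complex.norm_real, Real.norm_eq_abs, abs_mul, abs_of_pos scR_pos]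
  have h6 : |Real.log 2 - ∑ i ∈ Finset.range 200, (1 / 2 : ℝ) ^ (i + 1) / ((i : ℝ) + 1)| ≤
      (1 / 2) ^ 200 := by
    rw [abs_sub_comm]
    refine (le_trans (le_of_eq ?_) h2).trans (le_of_eq ?_)
    · congr 1
    · norm_num
  calc (sc : ℝ) * |Real.log 2 - ∑ i ∈ Finset.range 200, (1 / 2 : ℝ) ^ (i + 1) / ((i : ℝ) + 1)|
      ≤ sc * (1 / 2) ^ 200 := mul_le_mul_of_nonneg_left h6 scR_pos.le
    _ ≤ ((2 ^ 57 : ℕ) : ℝ) := by
      unfold sc
      norm_num

/-! ### The truncated incomplete gamma series -/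

/-- `y^k / (σ (σ+1) ... (σ+k))` -/
noncomputable def uu (σ y : ℂ) : ℕ → ℂ
  | 0 => 1 / σ
  | k + 1 => uu σ y k * y / (σ + (k + 1 : ℕ))

/-- the truncated series -/
noncomputable def TT (σ y : ℂ) (D : ℕ) : ℂ := ∑ k ∈ Finset.range (D + 1), uu σ y k

/-- loop computing `(TT, uu)`; `σ = (x + i yy)/den` -/
def tLoop (x yy : ℤ) (den : ℕ) (y : CB) : ℕ → ℕ → CB → CB → CB × CB
  | 0, _, u, acc => (acc, u)
  | fuel + 1, k, u, acc =>
    let u' := (u.mul y).divS (x + (k + 1 : ℕ) * den) yy den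
    tLoop x yy den y fuel (k + 1) u' (acc.add u')

lemma mem_tLoop {x yy : ℤ} {den : ℕ} (hyy : yy ≠ 0) (hden : 0 < den) {yB : CB} {y : ℂ}
    (hy : yB.mem y) (fuel k : ℕ) {u acc : CB}
    (hu : u.mem (uu (((x : ℂ) + (yy : ℂ) * Complex.I) / (den : ℂ)) y k))
    (ha : acc.mem (∑ j ∈ Finset.range (k + 1),
      uu (((x : ℂ) + (yy : ℂ) * Complex.I) / (den : ℂ)) y j)) :
    (tLoop x yy den yB fuel k u acc).1.mem
      (∑ j ∈ Finset.range (k + fuel + 1), uu (((x : ℂ) + (yy : ℂ) * Complex.I) / (den : ℂ)) y j) ∧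
    (tLoop x yy den yB fuel k u acc).2.mem
      (uu (((x : ℂ) + (yy : ℂ) * Complex.I) / (den : ℂ)) y (k + fuel)) := by
  induction fuel generalizing k u acc with
  | zero => exact ⟨by simpa [tLoop] using ha, by simpa [tLoop] using hu⟩
  | succ fuel ih =>
    set σ := ((x : ℂ) + (yy : ℂ) * Complex.I) / (den : ℂ) with hσ
    have hdc : (den : ℂ) ≠ 0 := by exact_mod_cast hden.ne'
    have h1 := mem_divS (mem_mul hu hy) (x := x + ((k + 1 : ℕ) : ℤ) * den) (y := yy) hyy hden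
    have h2 : ((((x + ((k + 1 : ℕ) : ℤ) * den : ℤ) : ℂ)) + (yy : ℂ) * Complex.I) / (den : ℂ) =
        σ + ((k + 1 : ℕ) : ℂ) := by
      rw [hσ]
      push_cast
      field_simp
      ring
    rw [h2] at h1
    have h3 : ((u.mul yB).divS (x + ((k + 1 : ℕ) : ℤ) * den) yy den).mem (uu σ y (k + 1)) := h1
    have h4 : (acc.add ((u.mul yB).divS (x + ((k + 1 : ℕ) : ℤ) * den) yy den)).mem
        (∑ j ∈ Finset.range (k + 1 + 1), uu σ y j) := by
      rw [Finset.sum_range_succ]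
      exact mem_add ha h3
    have := ih (k + 1) h3 h4
    rw [show k + 1 + fuel = k + (fuel + 1) by omega] at this
    exact this

/-- ball version of `(TT σ y D, uu σ y D)` -/
def tB (x yy : ℤ) (den : ℕ) (y : CB) (D : ℕ) : CB × CB :=
  let u0 := (ofInt 1).divS x yy den
  tLoop x yy den y D 0 u0 u0

lemma mem_tB {x yy : ℤ} {den : ℕ} (hyy : yy ≠ 0) (hden : 0 < den) {yB : CB} {y : ℂ}
    (hy : yB.mem y) (D : ℕ) :
    (tB x yy den yB D).1.mem (TT (((x : ℂ) + (yy : ℂ) * Complex.I) / (den : ℂ)) y D) ∧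
    (tB x yy den yB D).2.mem (uu (((x : ℂ) + (yy : ℂ) * Complex.I) / (den : ℂ)) y D) := by
  have h0 : ((ofInt 1).divS x yy den).mem
      (uu (((x : ℂ) + (yy : ℂ) * Complex.I) / (den : ℂ)) y 0) := by
    have := mem_divS (mem_ofInt 1) (x := x) (y := yy) hyy hden
    simpa [uu] using this
  have := mem_tLoop hyy hden hy D 0 h0 (by simpa using h0)
  rw [zero_add] at this
  exact this

end Pool.Agent.W_MP_d99112_an
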