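import Mathlib

/-!
# The Riemann Xi kernel and its truncated cosine transforms
-/

namespace Pool.Agent.W_MP_d99112_an

/-- The kernel `Φ(t) = 2 ∑_{n ≥ 1} (2π²n⁴e^{9t/2} - 3πn²e^{5t/2}) exp(-πn²e^{2t})`. -/
noncomputable def Phi (t : ℝ) : ℝ :=
  2 * ∑' n : ℕ, (2 * Real.pi ^ 2 * ((n : ℝ) + 1) ^ 4 * Real.exp (9 * t / 2) -
    3 * Real.pi * ((n : ℝ) + 1) ^ 2 * Real.exp (5 * t / 2)) *
      Real.exp (-Real.pi * ((n : ℝ) + 1) ^ 2 * Real.exp (2 * t))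

/-- The truncated cosine transform `F_R(z) = ∫_0^R Φ(x) cos(zx) dx`. -/
noncomputable def F (R : ℝ) (z : ℂ) : ℂ :=
  ∫ x in (0 : ℝ)..R, (Phi x : ℂ) * Complex.cos (z * x)

end Pool.Agent.W_MP_d99112_an
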