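import Pool.Agent.W_MP_d99112_an.Numer

/-!
# Existence of the two zeros and the final count
-/

namespace Pool.Agent.W_MP_d99112_an

open Complex CB MeasureTheory

lemma F_eq_CT (R : ℝ) (z : ℂ) : F R z = CT Phi R z := rfl

lemma exp_moment (n : ℕ) (hn : 0 < n) :
    Real.exp ((n : ℝ) * Real.log ((n : ℝ) / Real.pi) - n) =
      ((n : ℝ) / Real.pi) ^ n / Real.exp 1 ^ n := by
  have hn' : (0 : ℝ) < n := by exact_mod_cast hn
  have hpi := Real.pi_pos
  rw [Real.exp_sub, Real.exp_nat_mul, Real.exp_log (by positivity), ← Real.exp_nat_mul, mul_one]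

/-- numerical form of the moment bound -/
lemma moment_num {b δ : ℝ} {n : ℕ} (hn : 0 < n) (hδ : 0 < δ)
    (hsum : 9 / 2 + b + δ = 2 * (n : ℝ)) {M : ℝ} {y : ℝ} (hy : |y| ≤ b)
    (hM : 4 * 3.141593 ^ 2 * (100 / 99) * (2 / (2.7182818283 * δ)) ^ 2 *
      (((n : ℝ) / 3.141592) ^ n / 2.7182818283 ^ n) * (26 / 25) ≤ M) :
    ∀ t ∈ Set.Icc 0 RR, |Phi t| * (t ^ 2 * Real.exp (|y| * t)) * RR ≤ M := by
  intro t ht
  have hn' : (0 : ℝ) < n := by exact_mod_cast hn
  have h1 := kernel_moment hδ hn' hsum t ht.1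
  rw [exp_moment n hn] at h1
  have hpi0 := Real.pi_gt_d6
  have hpi1 := Real.pi_lt_d6
  have hpi := Real.pi_pos
  have he := Real.exp_one_gt_d9
  have he0 := Real.exp_pos 1
  have h2 : |Phi t| * (t ^ 2 * Real.exp (|y| * t)) ≤ |Phi t| * (t ^ 2 * Real.exp (b * t)) := by
    have h3 : Real.exp (|y| * t) ≤ Real.exp (b * t) :=
      Real.exp_le_exp.mpr (mul_le_mul_of_nonneg_right hy ht.1)
    have h4 : t ^ 2 * Real.exp (|y| * t) ≤ t ^ 2 * Real.exp (b * t) :=
      mul_le_mul_of_nonneg_left h3 (sq_nonneg t)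
    exact mul_le_mul_of_nonneg_left h4 (abs_nonneg _)
  have h5 : 4 * Real.pi ^ 2 * (100 / 99) * (2 / (Real.exp 1 * δ)) ^ 2 *
      (((n : ℝ) / Real.pi) ^ n / Real.exp 1 ^ n) ≤
      4 * 3.141593 ^ 2 * (100 / 99) * (2 / (2.7182818283 * δ)) ^ 2 *
      (((n : ℝ) / 3.141592) ^ n / 2.7182818283 ^ n) := by
    gcongr
  have h6 := h2.trans (h1.trans h5)
  refine le_trans ?_ hM
  exact mul_le_mul h6 RR_le RR_pos.le (by positivity)

lemma F_near (zr zi : ℤ) {V : ℂ} {e A : ℝ} {N : ℕ}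
    (hV : (FB zr zi DEN 140 360).mem V) (he : ‖F RR (sig zr zi DEN) - V‖ ≤ e)
    (hn : (FB zr zi DEN 140 360).nup * 10 ^ N ≤ sc) (hA : e + 1 / 10 ^ N ≤ A) :
    ‖F RR (sig zr zi DEN)‖ ≤ A := by
  have h1 := norm_le_nup hV
  have h2 : (((FB zr zi DEN 140 360).nup : ℕ) : ℝ) * 10 ^ N ≤ sc := by exact_mod_cast hn
  have hp : (0 : ℝ) < 10 ^ N := by positivity
  have h3 : (sc : ℝ) * (‖V‖ * 10 ^ N) ≤ sc * 1 := by
    rw [mul_one, ← mul_assoc]
    exact (mul_le_mul_of_nonneg_right h1 hp.le).trans h2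
  have h4 := le_of_mul_le_mul_left h3 scR_pos
  have h5 : ‖V‖ ≤ 1 / 10 ^ N := by
    rw [le_div_iff₀ hp]
    exact h4
  have h6 : F RR (sig zr zi DEN) = (F RR (sig zr zi DEN) - V) + V := by ring
  rw [h6]
  exact (norm_add_le _ _).trans (by linarith)

lemma sig_shift (x x' y : ℤ) {den : ℕ} (hden : 0 < den) {h : ℝ}
    (hh : ((x' - x : ℤ) : ℝ) = h * den) : sig x' y den = sig x y den + (h : ℂ) := by
  have hdc : (den : ℂ) ≠ 0 := by exact_mod_cast hden.ne'
  have hh' : ((x' : ℂ) - (x : ℂ)) = (h : ℂ) * (den : ℂ) := by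
    have := congrArg (fun r : ℝ => (r : ℂ)) hh
    push_cast at this
    exact this
  unfold sig
  rw [div_add' _ _ _ hdc]
  congr 1
  rw [← hh']
  ring

lemma re1 : |(z1r : ℝ) / DEN| ≤ 31 := by
  unfold z1r DEN
  rw [abs_le]
  constructor <;> norm_num

lemma zero1 : ∃ w : ℂ, ‖w - sig z1r z1i DEN‖ ≤ 1 / 8192 ∧ F RR w = 0 := by
  have hpi := Real.pi_gt_d6
  have hc : (26.5 : ℝ) ≤ 18 * Real.pi - 9 / 2 - 25.45 := by linarith
  have him : |(z1i : ℝ) / DEN| ≤ 25.45 := by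
    unfold z1i DEN
    rw [abs_le]
    constructor <;> norm_num
  have hre : |(z1r : ℝ) / DEN| ≤ 31 := by
    unfold z1r DEN
    rw [abs_le]
    constructor <;> norm_num
  have hres : |(z1s : ℝ) / DEN| ≤ 31 := by
    unfold z1s DEN
    rw [abs_le]
    constructor <;> norm_num
  obtain ⟨V, hV, hFV⟩ := F_ball DEN_pos (by unfold z1r; norm_num) ok1a ok1b him
    (by norm_num) (by norm_num : (0 : ℝ) < 26.5) hc hre
  obtain ⟨W, hW, hFW⟩ := F_ball DEN_pos (by unfold z1s; norm_num) ok1c ok1d him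
    (by norm_num) (by norm_num : (0 : ℝ) < 26.5) hc hres
  have hshift : sig z1s z1i DEN = sig z1r z1i DEN + ((1 / 4096 : ℝ) : ℂ) := by
    apply sig_shift _ _ _ DEN_pos
    unfold z1s z1r DEN
    norm_num
  have hA := F_near z1r z1i (A := 1e-9) hV hFV nup1 (by norm_num)
  have hD : (0.0211 : ℝ) ≤ ‖F RR (sig z1r z1i DEN + ((1 / 4096 : ℝ) : ℂ)) -
      F RR (sig z1r z1i DEN)‖ := by
    rw [← hshift]
    have h1 := norm_ge_of_diffOK (mem_sub hW hV) (by norm_num) diff1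
    have h2 : W - V = (F RR (sig z1s z1i DEN) - F RR (sig z1r z1i DEN)) -
        ((F RR (sig z1s z1i DEN) - W) - (F RR (sig z1r z1i DEN) - V)) := by ring
    rw [h2] at h1
    have h3 := norm_sub_le (F RR (sig z1s z1i DEN) - F RR (sig z1r z1i DEN))
      ((F RR (sig z1s z1i DEN) - W) - (F RR (sig z1r z1i DEN) - V))
    have h4 := norm_sub_le (F RR (sig z1s z1i DEN) - W) (F RR (sig z1r z1i DEN) - V)
    norm_num at h1 hFV hFW ⊢
    linarith
  have hM := moment_num (b := 25.45) (δ := 4.05) (n := 17) (by norm_num) (by norm_num)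
    (by norm_num) (M := 170000) (y := (sig z1r z1i DEN).im) (by rw [sig_im]; exact him)
    (by norm_num)
  have hRle := RR_le
  exact exists_zero RR_pos (continuousOn_Phi RR) (sig z1r z1i DEN) (h := 1 / 4096)
    (M := 170000) (A := 1e-9) (d := 0.0211) (r := 1 / 8192) (by norm_num)
    (by linarith) (by norm_num) (by linarith) hM hA hD (by norm_num)

lemma zero2 : ∃ w : ℂ, ‖w - sig z2r z2i DEN‖ ≤ 1 / 262144 ∧ F RR w = 0 := by
  have hpi := Real.pi_gt_d6
  have hc : (38.9 : ℝ) ≤ 18 * Real.pi - 9 / 2 - 13.08 := by linarith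
  have him : |(z2i : ℝ) / DEN| ≤ 13.08 := by
    unfold z2i DEN
    rw [abs_le]
    constructor <;> norm_num
  have hre : |(z2r : ℝ) / DEN| ≤ 31 := by
    unfold z2r DEN
    rw [abs_le]
    constructor <;> norm_num
  have hres : |(z2s : ℝ) / DEN| ≤ 31 := by
    unfold z2s DEN
    rw [abs_le]
    constructor <;> norm_num
  obtain ⟨V, hV, hFV⟩ := F_ball DEN_pos (by unfold z2r; norm_num) ok2a ok2b him
    (by norm_num) (by norm_num : (0 : ℝ) < 38.9) hc hre
  obtain ⟨W, hW, hFW⟩ := F_ball DEN_pos (by unfold z2s; norm_num) ok2c ok2d him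
    (by norm_num) (by norm_num : (0 : ℝ) < 38.9) hc hres
  have hshift : sig z2s z2i DEN = sig z2r z2i DEN + ((1 / 262144 : ℝ) : ℂ) := by
    apply sig_shift _ _ _ DEN_pos
    unfold z2s z2r DEN
    norm_num
  have hA := F_near z2r z2i (A := 4.41e-11) hV hFV nup2 (by norm_num)
  have hD : (8.37e-10 : ℝ) ≤ ‖F RR (sig z2r z2i DEN + ((1 / 262144 : ℝ) : ℂ)) -
      F RR (sig z2r z2i DEN)‖ := by
    rw [← hshift]
    have h1 := norm_ge_of_diffOK (mem_sub hW hV) (by norm_num) diff2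
    have h2 : W - V = (F RR (sig z2s z2i DEN) - F RR (sig z2r z2i DEN)) -
        ((F RR (sig z2s z2i DEN) - W) - (F RR (sig z2r z2i DEN) - V)) := by ring
    rw [h2] at h1
    have h3 := norm_sub_le (F RR (sig z2s z2i DEN) - F RR (sig z2r z2i DEN))
      ((F RR (sig z2s z2i DEN) - W) - (F RR (sig z2r z2i DEN) - V))
    have h4 := norm_sub_le (F RR (sig z2s z2i DEN) - W) (F RR (sig z2r z2i DEN) - V)
    norm_num at h1 hFV hFW ⊢
    linarith
  have hM := moment_num (b := 13.08) (δ := 4.42) (n := 11) (by norm_num) (by norm_num)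
    (by norm_num) (M := 19) (y := (sig z2r z2i DEN).im) (by rw [sig_im]; exact him)
    (by norm_num)
  have hRle := RR_le
  exact exists_zero RR_pos (continuousOn_Phi RR) (sig z2r z2i DEN) (h := 1 / 262144)
    (M := 19) (A := 4.41e-11) (d := 8.37e-10) (r := 1 / 262144) (by norm_num)
    (by linarith) (by norm_num) (by linarith) hM hA hD (by norm_num)

/-- the first zero, with its location -/
lemma zero1' : ∃ w : ℂ, 24.6 < w.re ∧ w.re < 24.7 ∧ 25.4 < w.im ∧ w.im < 25.5 ∧ F RR w = 0 := by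
  obtain ⟨w, hw, h0⟩ := zero1
  have h1 := (Complex.abs_re_le_norm (w - sig z1r z1i DEN)).trans hw
  have h2 := (Complex.abs_im_le_norm (w - sig z1r z1i DEN)).trans hw
  rw [Complex.sub_re, sig_re, abs_le] at h1
  rw [Complex.sub_im, sig_im, abs_le] at h2
  have e1 : (24.65 : ℝ) ≤ (z1r : ℝ) / DEN := by unfold z1r DEN; norm_num
  have e2 : (z1r : ℝ) / DEN ≤ 24.66 := by unfold z1r DEN; norm_num
  have e3 : (25.44 : ℝ) ≤ (z1i : ℝ) / DEN := by unfold z1i DEN; norm_num
  have e4 : (z1i : ℝ) / DEN ≤ 25.45 := by unfold z1i DEN; norm_num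
  refine ⟨w, ?_, ?_, ?_, ?_, h0⟩ <;> linarith

/-- the second zero, with its location -/
lemma zero2' : ∃ w : ℂ, 30.2 < w.re ∧ w.re < 30.3 ∧ 13 < w.im ∧ w.im < 13.1 ∧ F RR w = 0 := by
  obtain ⟨w, hw, h0⟩ := zero2
  have h1 := (Complex.abs_re_le_norm (w - sig z2r z2i DEN)).trans hw
  have h2 := (Complex.abs_im_le_norm (w - sig z2r z2i DEN)).trans hw
  rw [Complex.sub_re, sig_re, abs_le] at h1
  rw [Complex.sub_im, sig_im, abs_le] at h2
  have e1 : (30.22 : ℝ) ≤ (z2r : ℝ) / DEN := by unfold z2r DEN; norm_num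
  have e2 : (z2r : ℝ) / DEN ≤ 30.23 := by unfold z2r DEN; norm_num
  have e3 : (13.07 : ℝ) ≤ (z2i : ℝ) / DEN := by unfold z2i DEN; norm_num
  have e4 : (z2i : ℝ) / DEN ≤ 13.08 := by unfold z2i DEN; norm_num
  refine ⟨w, ?_, ?_, ?_, ?_, h0⟩ <;> linarith

/-- `F R` is even -/
lemma F_neg (R : ℝ) (z : ℂ) : F R (-z) = F R z := by
  unfold F
  apply intervalIntegral.integral_congr
  intro x _
  simp only
  rw [neg_mul, Complex.cos_neg]

/-- `F R` is real on the real axis -/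
lemma F_conj (R : ℝ) (z : ℂ) : F R (starRingEnd ℂ z) = starRingEnd ℂ (F R z) := by
  unfold F
  have h : starRingEnd ℂ (∫ x in (0 : ℝ)..R, (Phi x : ℂ) * Complex.cos (z * x)) =
      ∫ x in (0 : ℝ)..R, starRingEnd ℂ ((Phi x : ℂ) * Complex.cos (z * x)) := by
    unfold intervalIntegral
    rw [map_sub, ← integral_conj, ← integral_conj]
  rw [h]
  apply intervalIntegral.integral_congr
  intro x _
  simp only
  rw [map_mul, Complex.conj_ofReal, ← Complex.cos_conj, map_mul, Complex.conj_ofReal]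

/-- eight distinct elements from two elements in the open quadrant and the symmetries -/
lemma eight_le {S : Set ℂ} {w₁ w₂ : ℂ} (h1 : 24.6 < w₁.re) (h1' : w₁.re < 24.7)
    (h2 : 0 < w₁.im) (h3 : 30.2 < w₂.re) (h4 : 0 < w₂.im) (hneg : ∀ w ∈ S, -w ∈ S)
    (hconj : ∀ w ∈ S, starRingEnd ℂ w ∈ S) (hw1 : w₁ ∈ S) (hw2 : w₂ ∈ S) : 8 ≤ S.encard := by
  let g : Bool × Bool × Bool → ℂ := fun p =>
    ⟨(cond p.2.1 1 (-1)) * (cond p.1 w₁ w₂).re, (cond p.2.2 1 (-1)) * (cond p.1 w₁ w₂).im⟩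
  have hinj : Function.Injective g := by
    rintro ⟨a, b, c⟩ ⟨a', b', c'⟩ h
    have hre := congrArg Complex.re h
    have him := congrArg Complex.im h
    cases a <;> cases b <;> cases c <;> cases a' <;> cases b' <;> cases c' <;>
      simp [g] at hre him ⊢ <;> linarith
  have hsub : Set.range g ⊆ S := by
    rintro _ ⟨⟨a, b, c⟩, rfl⟩
    have hw : cond a w₁ w₂ ∈ S := by cases a <;> simpa
    cases b <;> cases c
    · have := hneg _ hw
      convert this using 1
      apply Complex.ext <;> simp [g]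
    · have := hneg _ (hconj _ hw)
      convert this using 1
      apply Complex.ext <;> simp [g]
    · have := hconj _ hw
      convert this using 1
      apply Complex.ext <;> simp [g]
    · convert hw using 1
      apply Complex.ext <;> simp [g]
  have hcard : (Set.range g).encard = 8 := by
    rw [← Set.image_univ, hinj.encard_image, Set.encard_univ]
    simp
  rw [← hcard]
  exact Set.encard_le_encard hsub

end Pool.Agent.W_MP_d99112_an
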