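import Pool.Agent.W_MP_d99112_an.Consts

/-!
# Exact primitive up to the truncation error of the incomplete gamma series
-/

namespace Pool.Agent.W_MP_d99112_an

open Complex

/-- `exp (2 σ t - κ e^{2t})` -/
noncomputable def EE (κ : ℝ) (σ : ℂ) (t : ℝ) : ℂ :=
  Complex.exp (2 * σ * (t : ℂ) - (κ : ℂ) * ((Real.exp (2 * t) : ℝ) : ℂ))

/-- `κ e^{2t}` as a complex number -/
noncomputable def yy (κ : ℝ) (t : ℝ) : ℂ := (κ : ℂ) * ((Real.exp (2 * t) : ℝ) : ℂ)

noncomputable def GG (κ : ℝ) (σ : ℂ) (D : ℕ) (t : ℝ) : ℂ :=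
  EE κ σ t * (-2 * (κ : ℂ) + (κ : ℂ) * (2 * σ - 3) * TT σ (yy κ t) D)

lemma hasDerivAt_yy (κ t : ℝ) : HasDerivAt (yy κ) (2 * yy κ t) t := by
  have h1 : HasDerivAt (fun t : ℝ => Real.exp (2 * t)) (Real.exp (2 * t) * 2) t := by
    have := ((hasDerivAt_id t).const_mul (2 : ℝ)).exp
    simpa using this
  have h2 := (h1.ofReal_comp).const_mul (κ : ℂ)
  refine h2.congr_deriv ?_
  unfold yy
  push_cast
  ring

lemma hasDerivAt_EE (κ : ℝ) (σ : ℂ) (t : ℝ) :
    HasDerivAt (EE κ σ) (EE κ σ t * (2 * σ - 2 * yy κ t)) t := by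
  have h0 : HasDerivAt (fun s : ℝ => (s : ℂ)) 1 t := (hasDerivAt_id t).ofReal_comp
  have h1 : HasDerivAt (fun s : ℝ => 2 * σ * (s : ℂ)) (2 * σ) t := by
    simpa using h0.const_mul (2 * σ)
  have h2 := hasDerivAt_yy κ t
  have h3 := (h1.sub h2).cexp
  exact h3

lemma hasDerivAt_uu {σ : ℂ} (κ t : ℝ) (k : ℕ) :
    HasDerivAt (fun s => uu σ (yy κ s) k) (2 * k * uu σ (yy κ t) k) t := by
  induction k with
  | zero =>
    simp only [uu, Nat.cast_zero, mul_zero, zero_mul]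
    exact hasDerivAt_const t _
  | succ k ih =>
    have h1 := (ih.mul (hasDerivAt_yy κ t)).div_const (σ + (k + 1 : ℕ))
    refine h1.congr_deriv ?_
    simp only [uu]
    push_cast
    ring

lemma uu_succ_mul {σ y : ℂ} {k : ℕ} (h : σ + (k + 1 : ℕ) ≠ 0) :
    (σ + (k + 1 : ℕ)) * uu σ y (k + 1) = uu σ y k * y := by
  simp only [uu]
  field_simp

lemma sum_relation {σ y : ℂ} (h : ∀ k : ℕ, σ + k ≠ 0) (D : ℕ) :
    ∑ k ∈ Finset.range (D + 1), (σ + k) * uu σ y k = 1 + y * TT σ y D - y * uu σ y D := by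
  induction D with
  | zero =>
    have h0 := h 0
    simp only [Nat.cast_zero, add_zero] at h0
    simp [TT, uu, h0]
  | succ D ih =>
    rw [Finset.sum_range_succ, ih, uu_succ_mul (h (D + 1))]
    unfold TT
    rw [Finset.sum_range_succ _ (D + 1)]
    ring

lemma hasDerivAt_TT {σ : ℂ} (κ t : ℝ) (D : ℕ) :
    HasDerivAt (fun s => TT σ (yy κ s) D)
      (∑ k ∈ Finset.range (D + 1), 2 * k * uu σ (yy κ t) k) t := by
  unfold TT
  apply HasDerivAt.fun_sum
  intro k _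
  exact hasDerivAt_uu κ t k

lemma hasDerivAt_GG {σ : ℂ} (h : ∀ k : ℕ, σ + k ≠ 0) (κ t : ℝ) (D : ℕ) :
    HasDerivAt (GG κ σ D)
      (2 * (EE κ σ t * (2 * (κ : ℂ) * yy κ t - 3 * (κ : ℂ))) -
        2 * (EE κ σ t * ((κ : ℂ) * (2 * σ - 3)) * (yy κ t * uu σ (yy κ t) D))) t := by
  have h1 := (hasDerivAt_EE κ σ t).mul
    (((hasDerivAt_TT (σ := σ) κ t D).const_mul ((κ : ℂ) * (2 * σ - 3))).const_add (-2 * (κ : ℂ)))
  have h2 : HasDerivAt (GG κ σ D) (EE κ σ t * (2 * σ - 2 * yy κ t) *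
      (-2 * (κ : ℂ) + (κ : ℂ) * (2 * σ - 3) * TT σ (yy κ t) D) +
      EE κ σ t * ((κ : ℂ) * (2 * σ - 3) * ∑ k ∈ Finset.range (D + 1), 2 * k * uu σ (yy κ t) k))
      t := h1
  refine h2.congr_deriv ?_
  have h3 := sum_relation (y := yy κ t) h D
  have h4 : ∑ k ∈ Finset.range (D + 1), (σ + k) * uu σ (yy κ t) k =
      σ * TT σ (yy κ t) D + ∑ k ∈ Finset.range (D + 1), (k : ℂ) * uu σ (yy κ t) k := by
    unfold TT
    rw [Finset.mul_sum, ← Finset.sum_add_distrib]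
    apply Finset.sum_congr rfl
    intro k _
    ring
  have h5 : ∑ k ∈ Finset.range (D + 1), 2 * (k : ℂ) * uu σ (yy κ t) k =
      2 * ∑ k ∈ Finset.range (D + 1), (k : ℂ) * uu σ (yy κ t) k := by
    rw [Finset.mul_sum]
    apply Finset.sum_congr rfl
    intro k _
    ring
  rw [h5]
  have h6 : ∑ k ∈ Finset.range (D + 1), (k : ℂ) * uu σ (yy κ t) k =
      1 + yy κ t * TT σ (yy κ t) D - yy κ t * uu σ (yy κ t) D - σ * TT σ (yy κ t) D := by
    rw [← h3, h4]; ring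
  rw [h6]
  ring

lemma continuous_yy (κ : ℝ) : Continuous (yy κ) := by
  unfold yy
  fun_prop

lemma continuous_EE (κ : ℝ) (σ : ℂ) : Continuous (EE κ σ) := by
  unfold EE
  fun_prop

lemma continuous_uu (κ : ℝ) (σ : ℂ) (k : ℕ) : Continuous (fun t => uu σ (yy κ t) k) := by
  induction k with
  | zero => simp only [uu]; exact continuous_const
  | succ k ih =>
    simp only [uu]
    exact (ih.mul (continuous_yy κ)).div_const _

lemma uu_eq (σ y : ℂ) (k : ℕ) : uu σ y k = y ^ k * uu σ 1 k := by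
  induction k with
  | zero => simp [uu]
  | succ k ih =>
    simp only [uu]
    rw [ih, pow_succ]
    ring

/-- the integral of the kernel against an exponential -/
lemma integral_EE {σ : ℂ} (h : ∀ k : ℕ, σ + k ≠ 0) (κ R : ℝ) (D : ℕ) :
    ∫ t in (0 : ℝ)..R, EE κ σ t * (2 * (κ : ℂ) * yy κ t - 3 * (κ : ℂ)) =
      (GG κ σ D R - GG κ σ D 0) / 2 +
        ∫ t in (0 : ℝ)..R, EE κ σ t * ((κ : ℂ) * (2 * σ - 3)) *
          (yy κ t * uu σ (yy κ t) D) := by
  have hc1 : Continuous (fun t => EE κ σ t * (2 * (κ : ℂ) * yy κ t - 3 * (κ : ℂ))) :=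
    (continuous_EE κ σ).mul (((continuous_const.mul (continuous_yy κ)).sub continuous_const))
  have hc2 : Continuous (fun t => EE κ σ t * ((κ : ℂ) * (2 * σ - 3)) *
          (yy κ t * uu σ (yy κ t) D)) :=
    ((continuous_EE κ σ).mul continuous_const).mul
      ((continuous_yy κ).mul (continuous_uu κ σ D))
  have h1 := intervalIntegral.integral_eq_sub_of_hasDerivAt (a := 0) (b := R)
    (fun t _ => hasDerivAt_GG h κ t D)
    (((hc1.const_mul 2).sub (hc2.const_mul 2)).intervalIntegrable 0 R)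
  rw [intervalIntegral.integral_sub ((hc1.const_mul 2).intervalIntegrable 0 R)
    ((hc2.const_mul 2).intervalIntegrable 0 R), intervalIntegral.integral_const_mul,
    intervalIntegral.integral_const_mul] at h1
  linear_combination h1 / 2

lemma norm_EE (κ : ℝ) (σ : ℂ) (t : ℝ) :
    ‖EE κ σ t‖ = Real.exp (2 * σ.re * t - κ * Real.exp (2 * t)) := by
  unfold EE
  rw [Complex.norm_exp, Complex.sub_re, ← Complex.ofReal_mul κ, Complex.ofReal_re]
  congr 2
  simp

lemma norm_yy {κ : ℝ} (hκ : 0 ≤ κ) (t : ℝ) : ‖yy κ t‖ = κ * Real.exp (2 * t) := by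
  unfold yy
  rw [norm_mul, Complex.norm_real, Complex.norm_real, Real.norm_eq_abs, Real.norm_eq_abs,
    abs_of_nonneg hκ, abs_of_pos (Real.exp_pos _)]

/-- bound of the truncation error -/
lemma trunc_bound {σ : ℂ} {κ R B : ℝ} (hκ : 0 ≤ κ) (hR : 0 ≤ R) (D : ℕ)
    (hB1 : 1 ≤ B) (hB : Real.exp (2 * σ.re * R) ≤ B) :
    ‖∫ t in (0 : ℝ)..R, EE κ σ t * ((κ : ℂ) * (2 * σ - 3)) *
          (yy κ t * uu σ (yy κ t) D)‖ ≤
      B * (κ * ‖2 * σ - 3‖) * ((κ * Real.exp (2 * R)) * ‖uu σ (yy κ R) D‖) * R := by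
  have hkey : ∀ t ∈ Set.uIoc 0 R, ‖EE κ σ t * ((κ : ℂ) * (2 * σ - 3)) *
          (yy κ t * uu σ (yy κ t) D)‖ ≤
      B * (κ * ‖2 * σ - 3‖) * ((κ * Real.exp (2 * R)) * ‖uu σ (yy κ R) D‖) := by
    intro t ht
    rw [Set.uIoc_of_le hR] at ht
    obtain ⟨ht0, htR⟩ := ht
    rw [norm_mul, norm_mul, norm_mul, norm_mul, Complex.norm_real, Real.norm_eq_abs,
      abs_of_nonneg hκ, norm_yy hκ]
    have hE : ‖EE κ σ t‖ ≤ B := by
      rw [norm_EE]
      have h1 : 2 * σ.re * t - κ * Real.exp (2 * t) ≤ 2 * σ.re * t := by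
        have := mul_nonneg hκ (Real.exp_pos (2 * t)).le
        linarith
      refine (Real.exp_le_exp.mpr h1).trans ?_
      rcases le_total 0 σ.re with h0 | h0
      · refine (Real.exp_le_exp.mpr ?_).trans hB
        exact mul_le_mul_of_nonneg_left htR (by linarith)
      · refine le_trans ?_ hB1
        rw [← Real.exp_zero]
        apply Real.exp_le_exp.mpr
        nlinarith
    have hy : κ * Real.exp (2 * t) ≤ κ * Real.exp (2 * R) := by
      apply mul_le_mul_of_nonneg_left _ hκ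
      apply Real.exp_le_exp.mpr
      linarith
    have hu : ‖uu σ (yy κ t) D‖ ≤ ‖uu σ (yy κ R) D‖ := by
      rw [uu_eq σ (yy κ t), uu_eq σ (yy κ R), norm_mul, norm_mul, norm_pow, norm_pow,
        norm_yy hκ, norm_yy hκ]
      apply mul_le_mul_of_nonneg_right _ (norm_nonneg _)
      exact pow_le_pow_left₀ (mul_nonneg hκ (Real.exp_pos _).le) hy D
    have hy0 : 0 ≤ κ * Real.exp (2 * t) := mul_nonneg hκ (Real.exp_pos _).le
    apply mul_le_mul
    · exact mul_le_mul_of_nonneg_right hE (mul_nonneg hκ (norm_nonneg _))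
    · exact mul_le_mul hy hu (norm_nonneg _) (hy0.trans hy)
    · exact mul_nonneg hy0 (norm_nonneg _)
    · exact mul_nonneg (le_trans zero_le_one hB1) (mul_nonneg hκ (norm_nonneg _))
  have := intervalIntegral.norm_integral_le_of_norm_le_const hkey
  rwa [sub_zero, abs_of_nonneg hR] at this

end Pool.Agent.W_MP_d99112_an
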