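import Mathlib

/-!
# Finite cosine transforms: Taylor estimate, holomorphy, and a zero criterion
-/

namespace Pool.Agent.W_MP_d99112_an

open Complex MeasureTheory

/-- finite cosine transform of `f` -/
noncomputable def CT (f : ℝ → ℝ) (R : ℝ) (z : ℂ) : ℂ :=
  ∫ x in (0 : ℝ)..R, (f x : ℂ) * Complex.cos (z * x)

/-- its formal derivative -/
noncomputable def CT1 (f : ℝ → ℝ) (R : ℝ) (z : ℂ) : ℂ :=
  ∫ x in (0 : ℝ)..R, (f x : ℂ) * (-((x : ℂ) * Complex.sin (z * x)))

lemma norm_exp_I_le (u : ℂ) : ‖Complex.exp (u * I)‖ ≤ Real.exp |u.im| := by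
  rw [Complex.norm_exp]
  apply Real.exp_le_exp.mpr
  have : (u * I).re = -u.im := by simp
  rw [this]
  exact neg_le_abs _

lemma norm_cos_le (u : ℂ) : ‖Complex.cos u‖ ≤ Real.exp |u.im| := by
  unfold Complex.cos
  rw [norm_div]
  have h1 := norm_exp_I_le u
  have h2 := norm_exp_I_le (-u)
  rw [neg_im, abs_neg] at h2
  have h3 := norm_add_le (Complex.exp (u * I)) (Complex.exp (-u * I))
  have h4 : ‖(2 : ℂ)‖ = 2 := by simp
  rw [h4, div_le_iff₀ (by norm_num)]
  linarith

lemma cos_taylor (u v : ℂ) (hv : ‖v‖ ≤ 1) :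
    ‖Complex.cos (u + v) - Complex.cos u - v * (-Complex.sin u)‖ ≤ ‖v‖ ^ 2 * Real.exp |u.im| := by
  have hid : Complex.cos (u + v) - Complex.cos u - v * (-Complex.sin u) =
      (Complex.exp (u * I) * (Complex.exp (v * I) - 1 - v * I) +
        Complex.exp (-u * I) * (Complex.exp (-v * I) - 1 - (-v * I))) / 2 := by
    unfold Complex.cos Complex.sin
    have e1 : Complex.exp ((u + v) * I) = Complex.exp (u * I) * Complex.exp (v * I) := by
      rw [← Complex.exp_add]; ring_nf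
    have e2 : Complex.exp (-(u + v) * I) = Complex.exp (-u * I) * Complex.exp (-v * I) := by
      rw [← Complex.exp_add]; ring_nf
    rw [e1, e2]
    ring_nf
  rw [hid, norm_div]
  have h4 : ‖(2 : ℂ)‖ = 2 := by simp
  rw [h4, div_le_iff₀ (by norm_num)]
  have hvI : ‖v * I‖ = ‖v‖ := by simp
  have hvI' : ‖-v * I‖ = ‖v‖ := by simp
  have h5 := Complex.norm_exp_sub_one_sub_id_le (x := v * I) (by rw [hvI]; exact hv)
  have h6 := Complex.norm_exp_sub_one_sub_id_le (x := -v * I) (by rw [hvI']; exact hv)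
  rw [hvI] at h5
  rw [hvI'] at h6
  have h1 := norm_exp_I_le u
  have h2 := norm_exp_I_le (-u)
  rw [neg_im, abs_neg] at h2
  refine (norm_add_le _ _).trans ?_
  rw [norm_mul, norm_mul]
  have h7 := mul_le_mul h1 h5 (norm_nonneg _) (Real.exp_pos _).le
  have h8 := mul_le_mul h2 h6 (norm_nonneg _) (Real.exp_pos _).le
  linarith

variable {f : ℝ → ℝ} {R : ℝ}

lemma intervalIntegrable_aux (hR : 0 ≤ R) (hf : ContinuousOn f (Set.Icc 0 R)) {g : ℝ → ℂ}
    (hg : Continuous g) : IntervalIntegrable (fun x => (f x : ℂ) * g x) volume 0 R := by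
  apply ContinuousOn.intervalIntegrable
  rw [Set.uIcc_of_le hR]
  exact (Complex.continuous_ofReal.comp_continuousOn hf).mul hg.continuousOn

/-- quadratic Taylor estimate -/
lemma CT_taylor (hR : 0 ≤ R) (hf : ContinuousOn f (Set.Icc 0 R)) (z w : ℂ) {m : ℝ}
    (hm : ∀ t ∈ Set.Icc 0 R, |f t| * (t ^ 2 * Real.exp (|z.im| * t)) ≤ m)
    (hw : ‖w‖ * R ≤ 1) :
    ‖CT f R (z + w) - CT f R z - w * CT1 f R z‖ ≤ ‖w‖ ^ 2 * (m * R) := by
  have hc1 : Continuous (fun x : ℝ => Complex.cos ((z + w) * x)) := by fun_prop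
  have hc2 : Continuous (fun x : ℝ => Complex.cos (z * x)) := by fun_prop
  have hc3 : Continuous (fun x : ℝ => -((x : ℂ) * Complex.sin (z * x))) := by fun_prop
  have i1 := intervalIntegrable_aux hR hf hc1
  have i2 := intervalIntegrable_aux hR hf hc2
  have i3 := intervalIntegrable_aux hR hf hc3
  have heq : CT f R (z + w) - CT f R z - w * CT1 f R z =
      ∫ x in (0 : ℝ)..R, (f x : ℂ) * (Complex.cos ((z + w) * x) - Complex.cos (z * x) -
        w * -((x : ℂ) * Complex.sin (z * x))) := by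
    unfold CT CT1
    rw [← intervalIntegral.integral_const_mul, ← intervalIntegral.integral_sub i1 i2,
      ← intervalIntegral.integral_sub (i1.sub i2) (i3.const_mul w)]
    apply intervalIntegral.integral_congr
    intro x _
    simp only
    ring
  rw [heq]
  have hkey : ∀ t ∈ Set.uIoc 0 R, ‖(f t : ℂ) * (Complex.cos ((z + w) * t) -
      Complex.cos (z * t) - w * -((t : ℂ) * Complex.sin (z * t)))‖ ≤ ‖w‖ ^ 2 * m := by
    intro t ht
    rw [Set.uIoc_of_le hR] at ht
    obtain ⟨ht0, htR⟩ := ht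
    have hwt : ‖w * (t : ℂ)‖ ≤ 1 := by
      rw [norm_mul, Complex.norm_real, Real.norm_eq_abs, abs_of_pos ht0]
      exact (mul_le_mul_of_nonneg_left htR (norm_nonneg _)).trans hw
    have h1 := cos_taylor (z * t) (w * t) hwt
    have h2 : Complex.cos ((z + w) * t) - Complex.cos (z * t) -
        w * -((t : ℂ) * Complex.sin (z * t)) = Complex.cos (z * t + w * t) - Complex.cos (z * t) -
        (w * t) * (-Complex.sin (z * t)) := by
      rw [add_mul]; ring
    rw [norm_mul, h2, Complex.norm_real, Real.norm_eq_abs]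
    have h3 : |(z * (t : ℂ)).im| = |z.im| * t := by
      have : (z * (t : ℂ)).im = z.im * t := by simp
      rw [this, abs_mul, abs_of_pos ht0]
    rw [h3, norm_mul, Complex.norm_real, Real.norm_eq_abs, abs_of_pos ht0] at h1
    have h4 := hm t ⟨ht0.le, htR⟩
    calc |f t| * ‖Complex.cos (z * t + w * t) - Complex.cos (z * t) -
        (w * t) * (-Complex.sin (z * t))‖ ≤ |f t| * ((‖w‖ * t) ^ 2 * Real.exp (|z.im| * t)) :=
          mul_le_mul_of_nonneg_left h1 (abs_nonneg _)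
      _ = ‖w‖ ^ 2 * (|f t| * (t ^ 2 * Real.exp (|z.im| * t))) := by ring
      _ ≤ ‖w‖ ^ 2 * m := mul_le_mul_of_nonneg_left h4 (by positivity)
  have := intervalIntegral.norm_integral_le_of_norm_le_const hkey
  rw [sub_zero, abs_of_nonneg hR] at this
  linarith

lemma CT_hasDerivAt (hR : 0 < R) (hf : ContinuousOn f (Set.Icc 0 R)) (z : ℂ) :
    HasDerivAt (CT f R) (CT1 f R z) z := by
  obtain ⟨m, hm⟩ : ∃ m, ∀ t ∈ Set.Icc 0 R, |f t| * (t ^ 2 * Real.exp (|z.im| * t)) ≤ m := by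
    have hc : ContinuousOn (fun t => |f t| * (t ^ 2 * Real.exp (|z.im| * t))) (Set.Icc 0 R) :=
      hf.abs.mul (Continuous.continuousOn (by fun_prop))
    obtain ⟨m, hm⟩ := (isCompact_Icc.image_of_continuousOn hc).bddAbove
    exact ⟨m, fun t ht => hm ⟨t, ht, rfl⟩⟩
  rw [hasDerivAt_iff_isLittleO_nhds_zero]
  have hO : (fun w : ℂ => CT f R (z + w) - CT f R z - w • CT1 f R z) =O[nhds 0]
      fun w : ℂ => w ^ 2 := by
    apply Asymptotics.IsBigO.of_bound (m * R)
    have hball : Metric.ball (0 : ℂ) (1 / R) ∈ nhds (0 : ℂ) :=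
      Metric.ball_mem_nhds _ (by positivity)
    filter_upwards [hball] with w hw
    rw [Metric.mem_ball, dist_zero_right, lt_div_iff₀ hR] at hw
    have := CT_taylor hR.le hf z w hm hw.le
    rw [smul_eq_mul, norm_pow]
    linarith
  refine hO.trans_isLittleO ?_
  have : (fun w : ℂ => w ^ 2) = fun w => w * w := by funext w; ring
  rw [this]
  have h1 : (fun w : ℂ => w) =o[nhds 0] fun _ : ℂ => (1 : ℂ) := by
    rw [Asymptotics.isLittleO_one_iff]
    exact Filter.tendsto_id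
  have h2 := (Asymptotics.isBigO_refl (fun w : ℂ => w) (nhds 0)).mul_isLittleO h1
  simpa using h2

/-- Zero criterion: two approximate values and a bound on the second derivative give a zero. -/
lemma exists_zero (hR : 0 < R) (hf : ContinuousOn f (Set.Icc 0 R)) (z₀ : ℂ) {h M A d r : ℝ}
    (hh : 0 < h) (hhR : h * R ≤ 1) (hr : 0 < r) (hrR : r * R ≤ 1)
    (hM : ∀ t ∈ Set.Icc 0 R, |f t| * (t ^ 2 * Real.exp (|z₀.im| * t)) * R ≤ M)
    (hA : ‖CT f R z₀‖ ≤ A) (hd : d ≤ ‖CT f R (z₀ + h) - CT f R z₀‖)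
    (hfin : 2 * A < (d / h - M * h) * r - M * r ^ 2) :
    ∃ z : ℂ, ‖z - z₀‖ ≤ r ∧ CT f R z = 0 := by
  have hM' : ∀ t ∈ Set.Icc 0 R, |f t| * (t ^ 2 * Real.exp (|z₀.im| * t)) ≤ M / R := by
    intro t ht
    rw [le_div_iff₀ hR]
    exact hM t ht
  have hMR : M / R * R = M := by field_simp
  have hT : ∀ w : ℂ, ‖w‖ * R ≤ 1 →
      ‖CT f R (z₀ + w) - CT f R z₀ - w * CT1 f R z₀‖ ≤ ‖w‖ ^ 2 * M := by
    intro w hw
    have := CT_taylor hR.le hf z₀ w hM' hw
    rwa [hMR] at this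
  have hnh : ‖(h : ℂ)‖ = h := by rw [Complex.norm_real, Real.norm_eq_abs, abs_of_pos hh]
  have h1 := hT (h : ℂ) (by rw [hnh]; exact hhR)
  rw [hnh] at h1
  -- lower bound of the derivative
  have h2 : d ≤ h * ‖CT1 f R z₀‖ + h ^ 2 * M := by
    have h3 : CT f R (z₀ + h) - CT f R z₀ = (h : ℂ) * CT1 f R z₀ +
        (CT f R (z₀ + h) - CT f R z₀ - (h : ℂ) * CT1 f R z₀) := by ring
    rw [h3] at hd
    have h4 := norm_add_le ((h : ℂ) * CT1 f R z₀)
      (CT f R (z₀ + h) - CT f R z₀ - (h : ℂ) * CT1 f R z₀)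
    rw [norm_mul, hnh] at h4
    linarith
  have h5 : d / h - M * h ≤ ‖CT1 f R z₀‖ := by
    rw [sub_le_iff_le_add, div_le_iff₀ hh]
    nlinarith
  by_contra hcon
  push Not at hcon
  -- lower bound on the circle
  have hcirc : ∀ z ∈ Metric.sphere z₀ r, A < ‖CT f R z‖ := by
    intro z hz
    have hz' : ‖z - z₀‖ = r := by rwa [mem_sphere_iff_norm] at hz
    have h6 := hT (z - z₀) (by rw [hz']; exact hrR)
    rw [add_sub_cancel, hz'] at h6
    have h7 : (z - z₀) * CT1 f R z₀ = CT f R z - CT f R z₀ -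
        (CT f R z - CT f R z₀ - (z - z₀) * CT1 f R z₀) := by ring
    have h8 : r * ‖CT1 f R z₀‖ ≤ ‖CT f R z‖ + A + r ^ 2 * M := by
      have h9 : ‖(z - z₀) * CT1 f R z₀‖ = r * ‖CT1 f R z₀‖ := by rw [norm_mul, hz']
      rw [← h9, h7]
      have h10 := norm_sub_le (CT f R z - CT f R z₀)
        (CT f R z - CT f R z₀ - (z - z₀) * CT1 f R z₀)
      have h11 := norm_sub_le (CT f R z) (CT f R z₀)
      linarith
    have h12 : (d / h - M * h) * r ≤ r * ‖CT1 f R z₀‖ := by
      rw [mul_comm r]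
      exact mul_le_mul_of_nonneg_right h5 hr.le
    nlinarith
  have hne : ∀ z ∈ Metric.closedBall z₀ r, CT f R z ≠ 0 := by
    intro z hz
    apply hcon
    rwa [mem_closedBall_iff_norm] at hz
  have hAnn : 0 ≤ A := (norm_nonneg _).trans hA
  have hdiff : Differentiable ℂ (CT f R) := fun z => (CT_hasDerivAt hR hf z).differentiableAt
  -- the sphere is compact: uniform strict bound
  have hcomp : IsCompact (Metric.sphere z₀ r) := isCompact_sphere _ _
  have hnonempty : (Metric.sphere z₀ r).Nonempty := by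
    refine ⟨z₀ + r, ?_⟩
    rw [mem_sphere_iff_norm, add_sub_cancel_left, Complex.norm_real, Real.norm_eq_abs,
      abs_of_pos hr]
  obtain ⟨zm, hzm, hmin⟩ := hcomp.exists_isMinOn hnonempty
    (hdiff.continuous.norm.continuousOn)
  set μ := ‖CT f R zm‖ with hμ
  have hμA : A < μ := hcirc zm hzm
  have hμpos : 0 < μ := lt_of_le_of_lt hAnn hμA
  have hg : DiffContOnCl ℂ (fun z => (CT f R z)⁻¹) (Metric.ball z₀ r) := by
    apply DifferentiableOn.diffContOnCl
    intro z hz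
    rw [closure_ball _ hr.ne'] at hz
    exact ((hdiff z).inv (hne z hz)).differentiableWithinAt
  have hmax := Complex.norm_le_of_forall_mem_frontier_norm_le (Metric.isBounded_ball) hg
    (C := μ⁻¹) (by
      intro z hz
      rw [frontier_ball _ hr.ne'] at hz
      rw [norm_inv]
      have h13 : μ ≤ ‖CT f R z‖ := hmin hz
      exact inv_anti₀ hμpos h13) (z := z₀) (subset_closure (Metric.mem_ball_self hr))
  rw [norm_inv] at hmax
  have hz0ne : CT f R z₀ ≠ 0 := hne z₀ (Metric.mem_closedBall_self hr.le)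
  have hz0pos : 0 < ‖CT f R z₀‖ := norm_pos_iff.mpr hz0ne
  have h14 : μ ≤ ‖CT f R z₀‖ := (inv_le_inv₀ hz0pos hμpos).mp hmax
  linarith

end Pool.Agent.W_MP_d99112_an
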