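import Pool.Agent.W_MP_d99112_an.Defs
import Pool.Agent.W_MP_d99112_an.Series
import Pool.Agent.W_MP_d99112_an.ZeroLemma

/-!
# Estimates for the kernel
-/

namespace Pool.Agent.W_MP_d99112_an

open Complex MeasureTheory

/-- the `n`-th term (index shifted by one) -/
noncomputable def ph (n : ℕ) (t : ℝ) : ℝ :=
  (2 * Real.pi ^ 2 * ((n : ℝ) + 1) ^ 4 * Real.exp (9 * t / 2) -
    3 * Real.pi * ((n : ℝ) + 1) ^ 2 * Real.exp (5 * t / 2)) *
      Real.exp (-Real.pi * ((n : ℝ) + 1) ^ 2 * Real.exp (2 * t))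

lemma Phi_eq (t : ℝ) : Phi t = 2 * ∑' n, ph n t := rfl

lemma continuous_ph (n : ℕ) : Continuous (ph n) := by
  unfold ph
  fun_prop

/-- `(n+1)^4 e^{-π (n+1)^2}` -/
noncomputable def ww (n : ℕ) : ℝ := ((n : ℝ) + 1) ^ 4 * Real.exp (-Real.pi * ((n : ℝ) + 1) ^ 2)

lemma ww_pos (n : ℕ) : 0 < ww n := by unfold ww; positivity

lemma exp_nine : (1600 : ℝ) ≤ Real.exp 9 := by
  have h1 : Real.exp 9 = Real.exp 1 ^ 9 := by rw [← Real.exp_nat_mul]; norm_num
  have h2 := Real.exp_one_gt_d9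
  rw [h1]
  calc (1600 : ℝ) ≤ 2.7182818283 ^ 9 := by norm_num
    _ ≤ Real.exp 1 ^ 9 := pow_le_pow_left₀ (by norm_num) h2.le 9

lemma ratio_bound : 16 * Real.exp (-3 * Real.pi) ≤ 1 / 100 := by
  have h1 : Real.exp (-3 * Real.pi) ≤ Real.exp (-9) := by
    apply Real.exp_le_exp.mpr
    have := Real.pi_gt_three
    linarith
  have h2 : Real.exp (-9) ≤ 1 / 1600 := by
    rw [Real.exp_neg, inv_eq_one_div]
    exact one_div_le_one_div_of_le (by norm_num) exp_nine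
  linarith

lemma ww_succ (n : ℕ) : ww (n + 1) ≤ ww n * (1 / 100) := by
  unfold ww
  have hn : (0 : ℝ) ≤ n := Nat.cast_nonneg n
  have h1 : (((n + 1 : ℕ) : ℝ) + 1) ^ 4 ≤ 16 * ((n : ℝ) + 1) ^ 4 := by
    have h2 : ((n + 1 : ℕ) : ℝ) + 1 ≤ 2 * ((n : ℝ) + 1) := by push_cast; linarith
    calc (((n + 1 : ℕ) : ℝ) + 1) ^ 4 ≤ (2 * ((n : ℝ) + 1)) ^ 4 :=
          pow_le_pow_left₀ (by positivity) h2 4
      _ = _ := by ring
  have h3 : Real.exp (-Real.pi * (((n + 1 : ℕ) : ℝ) + 1) ^ 2) ≤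
      Real.exp (-Real.pi * ((n : ℝ) + 1) ^ 2) * Real.exp (-3 * Real.pi) := by
    rw [← Real.exp_add]
    apply Real.exp_le_exp.mpr
    push_cast
    have hpi := Real.pi_pos
    nlinarith
  calc (((n + 1 : ℕ) : ℝ) + 1) ^ 4 * Real.exp (-Real.pi * (((n + 1 : ℕ) : ℝ) + 1) ^ 2)
      ≤ (16 * ((n : ℝ) + 1) ^ 4) *
          (Real.exp (-Real.pi * ((n : ℝ) + 1) ^ 2) * Real.exp (-3 * Real.pi)) :=
        mul_le_mul h1 h3 (Real.exp_pos _).le (by positivity)
    _ = ((n : ℝ) + 1) ^ 4 * Real.exp (-Real.pi * ((n : ℝ) + 1) ^ 2) *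
          (16 * Real.exp (-3 * Real.pi)) := by ring
    _ ≤ _ := mul_le_mul_of_nonneg_left ratio_bound (by positivity)

lemma ww_le (n k : ℕ) : ww (n + k) ≤ ww n * (1 / 100) ^ k := by
  induction k with
  | zero => simp
  | succ k ih =>
    rw [← add_assoc, pow_succ, ← mul_assoc]
    exact (ww_succ (n + k)).trans (mul_le_mul_of_nonneg_right ih (by norm_num))

/-- basic bound of a term -/
lemma abs_ph_le (n : ℕ) (t : ℝ) (ht : 0 ≤ t) :
    |ph n t| ≤ 2 * Real.pi ^ 2 * ((n : ℝ) + 1) ^ 4 * Real.exp (9 * t / 2) *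
      Real.exp (-Real.pi * ((n : ℝ) + 1) ^ 2 * Real.exp (2 * t)) := by
  unfold ph
  rw [abs_mul, abs_of_pos (Real.exp_pos (-Real.pi * ((n : ℝ) + 1) ^ 2 * Real.exp (2 * t)))]
  apply mul_le_mul_of_nonneg_right _ (Real.exp_pos _).le
  have hpi := Real.pi_gt_three
  have hn : (1 : ℝ) ≤ (n : ℝ) + 1 := by
    have : (0 : ℝ) ≤ n := Nat.cast_nonneg n
    linarith
  have h1 : Real.exp (5 * t / 2) ≤ Real.exp (9 * t / 2) := Real.exp_le_exp.mpr (by linarith)
  have h0 := Real.exp_pos (5 * t / 2)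
  have h2 : 3 * Real.pi * ((n : ℝ) + 1) ^ 2 * Real.exp (5 * t / 2) ≤
      2 * Real.pi ^ 2 * ((n : ℝ) + 1) ^ 4 * Real.exp (9 * t / 2) := by
    have h3 : 3 * Real.pi * ((n : ℝ) + 1) ^ 2 ≤ 2 * Real.pi ^ 2 * ((n : ℝ) + 1) ^ 4 := by
      have h4 : ((n : ℝ) + 1) ^ 2 ≤ ((n : ℝ) + 1) ^ 4 := pow_le_pow_right₀ hn (by norm_num)
      have h5 : 3 * Real.pi ≤ 2 * Real.pi ^ 2 := by nlinarith
      calc 3 * Real.pi * ((n : ℝ) + 1) ^ 2 ≤ 2 * Real.pi ^ 2 * ((n : ℝ) + 1) ^ 2 :=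
            mul_le_mul_of_nonneg_right h5 (by positivity)
        _ ≤ _ := mul_le_mul_of_nonneg_left h4 (by positivity)
    exact mul_le_mul h3 h1 h0.le (by positivity)
  have h3 : 0 ≤ 3 * Real.pi * ((n : ℝ) + 1) ^ 2 * Real.exp (5 * t / 2) := by positivity
  rw [abs_le]
  constructor <;> linarith

lemma exp_two_mul_ge (t : ℝ) : 1 + 2 * t ≤ Real.exp (2 * t) := by
  have := Real.add_one_le_exp (2 * t)
  linarith

/-- decay bound: for `n ≥ k` -/
lemma abs_ph_le' (k n : ℕ) (hk : k ≤ n) (t : ℝ) (ht : 0 ≤ t) :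
    |ph n t| ≤ 2 * Real.pi ^ 2 * ww n *
      Real.exp ((9 / 2 - 2 * Real.pi * ((k : ℝ) + 1) ^ 2) * t) := by
  refine (abs_ph_le n t ht).trans ?_
  have h1 : Real.exp (-Real.pi * ((n : ℝ) + 1) ^ 2 * Real.exp (2 * t)) ≤
      Real.exp (-Real.pi * ((n : ℝ) + 1) ^ 2) *
        Real.exp (-(2 * Real.pi * ((k : ℝ) + 1) ^ 2) * t) := by
    rw [← Real.exp_add]
    apply Real.exp_le_exp.mpr
    have h2 := exp_two_mul_ge t
    have h3 : (k : ℝ) + 1 ≤ (n : ℝ) + 1 := by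
      have : (k : ℝ) ≤ n := by exact_mod_cast hk
      linarith
    have h4 : ((k : ℝ) + 1) ^ 2 ≤ ((n : ℝ) + 1) ^ 2 := pow_le_pow_left₀ (by positivity) h3 2
    have hpi := Real.pi_pos
    have h5 : Real.pi * ((n : ℝ) + 1) ^ 2 * (1 + 2 * t) ≤
        Real.pi * ((n : ℝ) + 1) ^ 2 * Real.exp (2 * t) :=
      mul_le_mul_of_nonneg_left h2 (by positivity)
    have h6 : Real.pi * ((k : ℝ) + 1) ^ 2 * (2 * t) ≤ Real.pi * ((n : ℝ) + 1) ^ 2 * (2 * t) := by
      apply mul_le_mul_of_nonneg_right _ (by linarith)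
      exact mul_le_mul_of_nonneg_left h4 hpi.le
    nlinarith
  have h7 : Real.exp ((9 / 2 - 2 * Real.pi * ((k : ℝ) + 1) ^ 2) * t) =
      Real.exp (9 * t / 2) * Real.exp (-(2 * Real.pi * ((k : ℝ) + 1) ^ 2) * t) := by
    rw [← Real.exp_add]; ring_nf
  rw [h7]
  unfold ww
  calc 2 * Real.pi ^ 2 * ((n : ℝ) + 1) ^ 4 * Real.exp (9 * t / 2) *
      Real.exp (-Real.pi * ((n : ℝ) + 1) ^ 2 * Real.exp (2 * t))
      ≤ 2 * Real.pi ^ 2 * ((n : ℝ) + 1) ^ 4 * Real.exp (9 * t / 2) *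
        (Real.exp (-Real.pi * ((n : ℝ) + 1) ^ 2) *
        Real.exp (-(2 * Real.pi * ((k : ℝ) + 1) ^ 2) * t)) :=
        mul_le_mul_of_nonneg_left h1 (by positivity)
    _ = _ := by ring

lemma exp_le_one_aux (t : ℝ) (ht : 0 ≤ t) :
    Real.exp ((9 / 2 - 2 * Real.pi * (((0 : ℕ) : ℝ) + 1) ^ 2) * t) ≤ 1 := by
  rw [Real.exp_le_one_iff]
  have := Real.pi_gt_three
  push_cast
  nlinarith

lemma abs_ph_le_ww (n : ℕ) (t : ℝ) (ht : 0 ≤ t) : |ph n t| ≤ 2 * Real.pi ^ 2 * ww n := by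
  have h1 := abs_ph_le' 0 n (Nat.zero_le n) t ht
  have h2 := exp_le_one_aux t ht
  have h3 : 0 ≤ 2 * Real.pi ^ 2 * ww n := by
    have := ww_pos n
    positivity
  calc |ph n t| ≤ _ := h1
    _ ≤ 2 * Real.pi ^ 2 * ww n * 1 := mul_le_mul_of_nonneg_left h2 h3
    _ = _ := mul_one _

lemma summable_ww : Summable ww := by
  apply Summable.of_nonneg_of_le (fun n => (ww_pos n).le) (fun n => ?_)
    ((summable_geometric_of_lt_one (by norm_num : (0 : ℝ) ≤ 1 / 100) (by norm_num)).mul_left (ww 0))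
  have := ww_le 0 n
  rwa [zero_add] at this

lemma summable_ph (t : ℝ) (ht : 0 ≤ t) : Summable (fun n => ph n t) := by
  apply Summable.of_norm_bounded (summable_ww.mul_left (2 * Real.pi ^ 2))
  intro n
  rw [Real.norm_eq_abs]
  exact abs_ph_le_ww n t ht

lemma continuousOn_Phi (R : ℝ) : ContinuousOn Phi (Set.Icc 0 R) := by
  have : ContinuousOn (fun t => ∑' n, ph n t) (Set.Icc 0 R) := by
    apply continuousOn_tsum (fun n => (continuous_ph n).continuousOn)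
      (summable_ww.mul_left (2 * Real.pi ^ 2))
    intro n t ht
    rw [Real.norm_eq_abs]
    exact abs_ph_le_ww n t ht.1
  exact continuousOn_const.mul this

/-- tail of the kernel -/
noncomputable def tl (t : ℝ) : ℝ := 2 * ∑' n, ph (n + 2) t

lemma continuousOn_tl (R : ℝ) : ContinuousOn tl (Set.Icc 0 R) := by
  have : ContinuousOn (fun t => ∑' n, ph (n + 2) t) (Set.Icc 0 R) := by
    apply continuousOn_tsum (fun n => (continuous_ph (n + 2)).continuousOn)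
      (((summable_nat_add_iff 2).mpr summable_ww).mul_left (2 * Real.pi ^ 2))
    intro n t ht
    rw [Real.norm_eq_abs]
    exact abs_ph_le_ww (n + 2) t ht.1
  exact continuousOn_const.mul this

lemma Phi_split (t : ℝ) (ht : 0 ≤ t) : Phi t = 2 * ph 0 t + 2 * ph 1 t + tl t := by
  rw [Phi_eq, tl, ← (summable_ph t ht).sum_add_tsum_nat_add 2]
  simp only [Finset.sum_range_succ, Finset.sum_range_zero]
  ring

lemma tsum_geom : ∑' k : ℕ, (1 / 100 : ℝ) ^ k = 100 / 99 := by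
  rw [tsum_geometric_of_lt_one (by norm_num) (by norm_num)]
  norm_num

lemma abs_tl_le (t : ℝ) (ht : 0 ≤ t) :
    |tl t| ≤ 4 * Real.pi ^ 2 * (ww 2 * (100 / 99)) *
      Real.exp ((9 / 2 - 18 * Real.pi) * t) := by
  unfold tl
  rw [abs_mul, abs_two]
  have h1 : ∀ n, ‖ph (n + 2) t‖ ≤ 2 * Real.pi ^ 2 * Real.exp ((9 / 2 - 18 * Real.pi) * t) *
      (ww 2 * (1 / 100) ^ n) := by
    intro n
    rw [Real.norm_eq_abs]
    have h2 := abs_ph_le' 2 (n + 2) (by omega) t ht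
    have h3 := ww_le 2 n
    rw [add_comm 2 n] at h3
    have h4 : (9 / 2 - 2 * Real.pi * (((2 : ℕ) : ℝ) + 1) ^ 2) = 9 / 2 - 18 * Real.pi := by
      push_cast; ring
    rw [h4] at h2
    calc |ph (n + 2) t| ≤ _ := h2
      _ = 2 * Real.pi ^ 2 * Real.exp ((9 / 2 - 18 * Real.pi) * t) * ww (n + 2) := by ring
      _ ≤ _ := mul_le_mul_of_nonneg_left h3 (by positivity)
  have hs : Summable (fun n : ℕ => 2 * Real.pi ^ 2 * Real.exp ((9 / 2 - 18 * Real.pi) * t) *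
      (ww 2 * (1 / 100) ^ n)) :=
    ((summable_geometric_of_lt_one (by norm_num : (0 : ℝ) ≤ 1 / 100)
      (by norm_num)).mul_left (ww 2)).mul_left _
  have h5 := tsum_of_norm_bounded hs.hasSum h1
  rw [Real.norm_eq_abs, tsum_mul_left, tsum_mul_left, tsum_geom] at h5
  calc 2 * |∑' n, ph (n + 2) t| ≤ 2 * (2 * Real.pi ^ 2 *
      Real.exp ((9 / 2 - 18 * Real.pi) * t) * (ww 2 * (100 / 99))) :=
        mul_le_mul_of_nonneg_left h5 (by norm_num)
    _ = _ := by ring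

/-- global majorant of the kernel -/
lemma abs_Phi_le (t : ℝ) (ht : 0 ≤ t) :
    |Phi t| ≤ 4 * Real.pi ^ 2 * (100 / 99) *
      (Real.exp (9 * t / 2) * Real.exp (-Real.pi * Real.exp (2 * t))) := by
  rw [Phi_eq, abs_mul, abs_two]
  have h1 : ∀ n, ‖ph n t‖ ≤ 2 * Real.pi ^ 2 *
      (Real.exp (9 * t / 2) * Real.exp (-Real.pi * Real.exp (2 * t))) * (1 / 100) ^ n := by
    intro n
    rw [Real.norm_eq_abs]
    refine (abs_ph_le n t ht).trans ?_
    have h2 := ww_le 0 n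
    rw [zero_add] at h2
    have hw0 : ww 0 = Real.exp (-Real.pi) := by unfold ww; norm_num
    rw [hw0] at h2
    unfold ww at h2
    have h3 : ((n : ℝ) + 1) ^ 4 * Real.exp (-Real.pi * ((n : ℝ) + 1) ^ 2 * Real.exp (2 * t)) ≤
        (1 / 100) ^ n * Real.exp (-Real.pi * Real.exp (2 * t)) := by
      have h4 : Real.exp (-Real.pi * ((n : ℝ) + 1) ^ 2 * Real.exp (2 * t)) ≤
          Real.exp (-Real.pi * ((n : ℝ) + 1) ^ 2) * (Real.exp Real.pi *
            Real.exp (-Real.pi * Real.exp (2 * t))) := by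
        rw [← Real.exp_add, ← Real.exp_add]
        apply Real.exp_le_exp.mpr
        have h5 : (1 : ℝ) ≤ Real.exp (2 * t) := Real.one_le_exp (by linarith)
        have h6 : (1 : ℝ) ≤ ((n : ℝ) + 1) ^ 2 := by
          have : (0 : ℝ) ≤ n := Nat.cast_nonneg n
          nlinarith
        have hpi := Real.pi_pos
        have h7 : 0 ≤ (((n : ℝ) + 1) ^ 2 - 1) * (Real.exp (2 * t) - 1) :=
          mul_nonneg (by linarith) (by linarith)
        nlinarith
      calc ((n : ℝ) + 1) ^ 4 * Real.exp (-Real.pi * ((n : ℝ) + 1) ^ 2 * Real.exp (2 * t))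
          ≤ ((n : ℝ) + 1) ^ 4 * (Real.exp (-Real.pi * ((n : ℝ) + 1) ^ 2) * (Real.exp Real.pi *
            Real.exp (-Real.pi * Real.exp (2 * t)))) :=
            mul_le_mul_of_nonneg_left h4 (by positivity)
        _ = (((n : ℝ) + 1) ^ 4 * Real.exp (-Real.pi * ((n : ℝ) + 1) ^ 2)) * (Real.exp Real.pi *
            Real.exp (-Real.pi * Real.exp (2 * t))) := by ring
        _ ≤ (Real.exp (-Real.pi) * (1 / 100) ^ n) * (Real.exp Real.pi *
            Real.exp (-Real.pi * Real.exp (2 * t))) :=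
            mul_le_mul_of_nonneg_right h2 (by positivity)
        _ = (Real.exp (-Real.pi) * Real.exp Real.pi) * ((1 / 100) ^ n *
            Real.exp (-Real.pi * Real.exp (2 * t))) := by ring
        _ = _ := by rw [← Real.exp_add]; simp
    calc 2 * Real.pi ^ 2 * ((n : ℝ) + 1) ^ 4 * Real.exp (9 * t / 2) *
      Real.exp (-Real.pi * ((n : ℝ) + 1) ^ 2 * Real.exp (2 * t))
        = 2 * Real.pi ^ 2 * Real.exp (9 * t / 2) * (((n : ℝ) + 1) ^ 4 *
      Real.exp (-Real.pi * ((n : ℝ) + 1) ^ 2 * Real.exp (2 * t))) := by ring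
      _ ≤ 2 * Real.pi ^ 2 * Real.exp (9 * t / 2) * ((1 / 100) ^ n *
          Real.exp (-Real.pi * Real.exp (2 * t))) :=
          mul_le_mul_of_nonneg_left h3 (by positivity)
      _ = _ := by ring
  have hs : Summable (fun n : ℕ => 2 * Real.pi ^ 2 *
      (Real.exp (9 * t / 2) * Real.exp (-Real.pi * Real.exp (2 * t))) * (1 / 100) ^ n) :=
    (summable_geometric_of_lt_one (by norm_num : (0 : ℝ) ≤ 1 / 100) (by norm_num)).mul_left _
  have h5 := tsum_of_norm_bounded hs.hasSum h1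
  rw [Real.norm_eq_abs, tsum_mul_left, tsum_geom] at h5
  calc 2 * |∑' n, ph n t| ≤ 2 * (2 * Real.pi ^ 2 *
      (Real.exp (9 * t / 2) * Real.exp (-Real.pi * Real.exp (2 * t))) * (100 / 99)) :=
        mul_le_mul_of_nonneg_left h5 (by norm_num)
    _ = _ := by ring

/-- `t² e^{bt}` times the kernel: explicit bound, `9/2 + b + δ = 2 s` -/
lemma kernel_moment {b δ s : ℝ} (hδ : 0 < δ) (hs : 0 < s) (hsum : 9 / 2 + b + δ = 2 * s)
    (t : ℝ) (ht : 0 ≤ t) :
    |Phi t| * (t ^ 2 * Real.exp (b * t)) ≤ 4 * Real.pi ^ 2 * (100 / 99) *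
      (2 / (Real.exp 1 * δ)) ^ 2 * Real.exp (s * Real.log (s / Real.pi) - s) := by
  have hpi := Real.pi_pos
  have h1 := abs_Phi_le t ht
  have h2 : t ≤ 2 / (Real.exp 1 * δ) * Real.exp (δ * t / 2) := by
    have h3 : δ * t / 2 ≤ Real.exp (δ * t / 2 - 1) := by
      have := Real.add_one_le_exp (δ * t / 2 - 1)
      linarith
    rw [Real.exp_sub] at h3
    have h4 : 0 < Real.exp 1 := Real.exp_pos 1
    rw [le_div_iff₀ h4] at h3
    rw [div_mul_eq_mul_div, le_div_iff₀ (by positivity)]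
    nlinarith
  have h5 : t ^ 2 ≤ (2 / (Real.exp 1 * δ)) ^ 2 * Real.exp (δ * t) := by
    have h6 := pow_le_pow_left₀ ht h2 2
    rw [mul_pow, ← Real.exp_nat_mul] at h6
    have h7 : ((2 : ℕ) : ℝ) * (δ * t / 2) = δ * t := by push_cast; ring
    rwa [h7] at h6
  have h8 : Real.exp (9 * t / 2) * Real.exp (-Real.pi * Real.exp (2 * t)) *
      (Real.exp (δ * t) * Real.exp (b * t)) ≤ Real.exp (s * Real.log (s / Real.pi) - s) := by
    rw [← Real.exp_add, ← Real.exp_add, ← Real.exp_add]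
    apply Real.exp_le_exp.mpr
    have h9 : 2 * t - Real.log (s / Real.pi) + 1 ≤
        Real.exp (2 * t - Real.log (s / Real.pi)) := Real.add_one_le_exp _
    rw [Real.exp_sub, Real.exp_log (by positivity)] at h9
    have h10 : Real.exp (2 * t) / (s / Real.pi) = Real.pi * Real.exp (2 * t) / s := by
      field_simp
    rw [h10, le_div_iff₀ hs] at h9
    nlinarith
  have he1 : 0 ≤ Real.exp (9 * t / 2) * Real.exp (-Real.pi * Real.exp (2 * t)) := by positivity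
  calc |Phi t| * (t ^ 2 * Real.exp (b * t))
      ≤ (4 * Real.pi ^ 2 * (100 / 99) *
      (Real.exp (9 * t / 2) * Real.exp (-Real.pi * Real.exp (2 * t)))) *
        (((2 / (Real.exp 1 * δ)) ^ 2 * Real.exp (δ * t)) * Real.exp (b * t)) := by
        apply mul_le_mul h1 _ (by positivity) (by positivity)
        exact mul_le_mul_of_nonneg_right h5 (Real.exp_pos _).le
    _ = 4 * Real.pi ^ 2 * (100 / 99) * (2 / (Real.exp 1 * δ)) ^ 2 *
        (Real.exp (9 * t / 2) * Real.exp (-Real.pi * Real.exp (2 * t)) *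
      (Real.exp (δ * t) * Real.exp (b * t))) := by ring
    _ ≤ _ := mul_le_mul_of_nonneg_left h8 (by positivity)

end Pool.Agent.W_MP_d99112_an
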