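import Pool.Agent.W_MP_d99112_an.Cert

/-!
# Numerical certificates (checked by kernel evaluation)
-/

namespace Pool.Agent.W_MP_d99112_an

open Complex CB

set_option maxRecDepth 100000

/-- common denominator `2^44` -/
def DEN : ℕ := 17592186044416

lemma DEN_pos : 0 < DEN := by unfold DEN; norm_num

def z1r : ℤ := 433686915102180
def z1i : ℤ := 447596264396701
def z2r : ℤ := 531733111124792
def z2i : ℤ := 229998679413227
def z1s : ℤ := 433691210069476
def z2s : ℤ := 531733178233656

lemma ok1a : okB (5 * DEN - 2 * z1i) (2 * z1r) (4 * DEN) 140 360 = true := by decide +kernel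
lemma ok1b : okB (5 * DEN + 2 * z1i) (-(2 * z1r)) (4 * DEN) 140 360 = true := by decide +kernel
lemma ok1c : okB (5 * DEN - 2 * z1i) (2 * z1s) (4 * DEN) 140 360 = true := by decide +kernel
lemma ok1d : okB (5 * DEN + 2 * z1i) (-(2 * z1s)) (4 * DEN) 140 360 = true := by decide +kernel
lemma ok2a : okB (5 * DEN - 2 * z2i) (2 * z2r) (4 * DEN) 140 360 = true := by decide +kernel
lemma ok2b : okB (5 * DEN + 2 * z2i) (-(2 * z2r)) (4 * DEN) 140 360 = true := by decide +kernel
lemma ok2c : okB (5 * DEN - 2 * z2i) (2 * z2s) (4 * DEN) 140 360 = true := by decide +kernel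
lemma ok2d : okB (5 * DEN + 2 * z2i) (-(2 * z2s)) (4 * DEN) 140 360 = true := by decide +kernel

lemma nup1 : (FB z1r z1i DEN 140 360).nup * 10 ^ 11 ≤ sc := by decide +kernel

lemma nup2 : (FB z2r z2i DEN 140 360).nup * 10 ^ 16 ≤ sc := by decide +kernel

/-- the check of the lower bound of the difference -/
def diffOK (b : CB) (p q : ℕ) : Bool :=
  decide ((((sc * p / q : ℕ) : ℤ) + b.rad) ^ 2 ≤ b.re ^ 2 + b.im ^ 2)

lemma diff1 : diffOK ((FB z1s z1i DEN 140 360).sub (FB z1r z1i DEN 140 360)) 2111 100000 = true := by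
  decide +kernel

lemma diff2 : diffOK ((FB z2s z2i DEN 140 360).sub (FB z2r z2i DEN 140 360)) 9259
    10000000000000 = true := by
  decide +kernel

lemma norm_ge_of_diffOK {b : CB} {w : ℂ} (hb : b.mem w) {p q : ℕ} (hq : 0 < q)
    (h : diffOK b p q = true) : (p : ℝ) / q - 1e-70 ≤ ‖w‖ := by
  unfold diffOK at h
  rw [decide_eq_true_eq] at h
  have h1 := norm_ge_of_ball hb h
  have hq' : (0 : ℝ) < q := by exact_mod_cast hq
  have h2 := nat_floor_close (sc * p) hq
  push_cast at h2
  have h3 : (sc : ℝ) * (p / q) ≤ sc * ‖w‖ + 1 := by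
    have : (sc : ℝ) * (p / q) = sc * p / q := by ring
    rw [this]
    linarith
  have h4 : (1 : ℝ) ≤ sc * 1e-70 := by
    unfold sc
    norm_num
  have h5 : (sc : ℝ) * (p / q - 1e-70) ≤ sc * ‖w‖ := by
    rw [mul_sub]
    linarith
  exact le_of_mul_le_mul_left h5 scR_pos

end Pool.Agent.W_MP_d99112_an
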